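import Mathlib

set_option autoImplicit false

open Filter Topology MeasureTheory
open scoped ENNReal Manifold ContDiff

namespace Pool.Agent.Results.MP_2957ea_an.EquivalenceFails

/-! ### The notions of the problem -/

/-- The average `(1/N) * ∑_{n=1}^{N} f₁(T₁^{a₁(n)} x) ⋯ f_ℓ(T_ℓ^{a_ℓ(n)} x)`. -/
noncomputable def multAvg {X : Type} {ℓ : ℕ} (a : Fin ℓ → ℕ → ℤ) (T : Fin ℓ → Equiv.Perm X)
    (f : Fin ℓ → X → ℂ) (N : ℕ) (x : X) : ℂ :=
  (1 / (N : ℂ)) * ∑ n ∈ Finset.Icc 1 N, ∏ i, f i ((T i ^ a i n) x)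

/-- The functions `F N` converge in `L²(μ)` as `N → ∞`. -/
def ConvergesInL2 {X : Type} [MeasurableSpace X] (μ : Measure X) (F : ℕ → X → ℂ) : Prop :=
  ∃ g : X → ℂ, MemLp g 2 μ ∧ Tendsto (fun N => eLpNorm (fun x => F N x - g x) 2 μ) atTop (𝓝 0)

/-- Condition (i): the sequences `a₁, …, a_ℓ` are good for `ℓ`-convergence of commuting
transformations. -/
def GoodForCommuting (ℓ : ℕ) (a : Fin ℓ → ℕ → ℤ) : Prop :=
  ∀ (X : Type) [MeasurableSpace X] (μ : Measure X) [IsProbabilityMeasure μ]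
    (T : Fin ℓ → Equiv.Perm X),
    (∀ i, MeasurePreserving (T i) μ μ) → (∀ i, Measurable (T i).symm) →
    (∀ i j, Commute (T i) (T j)) →
    ∀ f : Fin ℓ → X → ℂ, (∀ i, MemLp (f i) ⊤ μ) → ConvergesInL2 μ (multAvg a T f)

/-- Condition (ii): the sequences `a₁, …, a_ℓ` are good for `ℓ`-convergence of `ℓ`-step
nilsystems.  Here `G` is a real Lie group, nilpotent of step at most `ℓ`, `Γ` is a discrete
cocompact subgroup, `m` is the `G`-invariant Borel probability measure on `G ⧸ Γ`, and the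
transformations are `x ↦ bᵢ x` with pairwise commuting `bᵢ ∈ G`. -/
def GoodForNilsystems (ℓ : ℕ) (a : Fin ℓ → ℕ → ℤ) : Prop :=
  ∀ (E : Type) [NormedAddCommGroup E] [NormedSpace ℝ E] [FiniteDimensional ℝ E]
    (G : Type) [Group G] [TopologicalSpace G] [T2Space G] [SecondCountableTopology G]
    [ChartedSpace E G] [LieGroup 𝓘(ℝ, E) ∞ G] [Group.IsNilpotent G] (Γ : Subgroup G),
    Group.nilpotencyClass G ≤ ℓ → DiscreteTopology Γ → CompactSpace (G ⧸ Γ) →
    ∀ [MeasurableSpace (G ⧸ Γ)] [BorelSpace (G ⧸ Γ)] (m : Measure (G ⧸ Γ))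
      [IsProbabilityMeasure m],
    (∀ g : G, MeasurePreserving (fun x : G ⧸ Γ => g • x) m m) →
    ∀ b : Fin ℓ → G, (∀ i j, Commute (b i) (b j)) →
    ∀ f : Fin ℓ → G ⧸ Γ → ℂ, (∀ i, MemLp (f i) ⊤ m) →
      ConvergesInL2 m (multAvg a (fun i => MulAction.toPerm (b i)) f)

/-- Condition (iii), required only for basic nilsequences with a continuous function `F`: the
averages `(1/N) ∑_{n=1}^{N} F(b₁^{a₁(n)} ⋯ b_ℓ^{a_ℓ(n)} x)` converge for every nilmanifold
`G ⧸ Γ` of step at most `ℓ`, all `b₁, …, b_ℓ ∈ G`, all `x ∈ G ⧸ Γ` and all continuous `F`. -/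
def NilsequenceAveragesConverge (ℓ : ℕ) (a : Fin ℓ → ℕ → ℤ) : Prop :=
  ∀ (E : Type) [NormedAddCommGroup E] [NormedSpace ℝ E] [FiniteDimensional ℝ E]
    (G : Type) [Group G] [TopologicalSpace G] [T2Space G] [SecondCountableTopology G]
    [ChartedSpace E G] [LieGroup 𝓘(ℝ, E) ∞ G] [Group.IsNilpotent G] (Γ : Subgroup G),
    Group.nilpotencyClass G ≤ ℓ → DiscreteTopology Γ → CompactSpace (G ⧸ Γ) →
    ∀ (b : Fin ℓ → G) (x : G ⧸ Γ) (F : G ⧸ Γ → ℂ), Continuous F →
      ∃ L : ℂ, Tendsto (fun N : ℕ => (1 / (N : ℂ)) * ∑ n ∈ Finset.Icc 1 N,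
        F ((List.ofFn fun i => b i ^ a i n).prod • x)) atTop (𝓝 L)

/-! ### Concatenation of lists -/

namespace Conc

variable {P : Type}

/-- repeat a list `r` times -/
def rep (r : ℕ) (L : List P) : List P := (List.replicate r L).flatten

/-- the prefixes of the concatenated sequence -/
def pre (M : ℕ → List P) : ℕ → List P
  | 0 => []
  | k + 1 => pre M k ++ rep ((k + 1) * (pre M k).length + (k + 1) * (M (k + 1)).length + 1) (M k)

/-- number of repetitions in block `k` -/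
def rr (M : ℕ → List P) (k : ℕ) : ℕ :=
  (k + 1) * (pre M k).length + (k + 1) * (M (k + 1)).length + 1

theorem pre_succ (M : ℕ → List P) (k : ℕ) :
    pre M (k + 1) = pre M k ++ rep (rr M k) (M k) := rfl

theorem length_rep (r : ℕ) (L : List P) : (rep r L).length = r * L.length := by
  simp [rep]

theorem sum_rep {E : Type} [AddCommMonoid E] (Φ : P → E) (r : ℕ) (L : List P) :
    ((rep r L).map Φ).sum = r • (L.map Φ).sum := by
  induction r with
  | zero => simp [rep]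
  | succ n ih =>
    have : rep (n + 1) L = L ++ rep n L := by
      simp [rep, List.replicate_succ]
    rw [this, List.map_append, List.sum_append, ih, succ_nsmul']

theorem rep_add (r s : ℕ) (L : List P) : rep (r + s) L = rep r L ++ rep s L := by
  unfold rep
  rw [List.replicate_add, List.flatten_append]

theorem length_pre_succ (M : ℕ → List P) (k : ℕ) :
    (pre M (k + 1)).length = (pre M k).length + rr M k * (M k).length := by
  rw [pre_succ, List.length_append, length_rep]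

theorem le_length_pre (M : ℕ → List P) (hM : ∀ k, M k ≠ []) (k : ℕ) :
    k ≤ (pre M k).length := by
  induction k with
  | zero => simp
  | succ n ih =>
    rw [length_pre_succ]
    have h1 : 1 ≤ (M n).length := List.length_pos_iff.mpr (hM n)
    have h2 : 1 ≤ rr M n := by unfold rr; omega
    have h3 : 1 * 1 ≤ rr M n * (M n).length := Nat.mul_le_mul h2 h1
    omega

theorem length_pre_lt (M : ℕ → List P) (hM : ∀ k, M k ≠ []) (k : ℕ) :
    (pre M k).length < (pre M (k + 1)).length := by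
  rw [length_pre_succ]
  have h1 : 1 ≤ (M k).length := List.length_pos_iff.mpr (hM k)
  have h2 : 1 ≤ rr M k := by unfold rr; omega
  have h3 : 1 * 1 ≤ rr M k * (M k).length := Nat.mul_le_mul h2 h1
  omega

theorem big1 (M : ℕ → List P) (hM : ∀ k, M k ≠ []) (k : ℕ) :
    (k + 1) * (pre M k).length ≤ (pre M (k + 1)).length := by
  rw [length_pre_succ]
  have h1 : 1 ≤ (M k).length := List.length_pos_iff.mpr (hM k)
  have h3 : rr M k * 1 ≤ rr M k * (M k).length := Nat.mul_le_mul le_rfl h1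
  have h2 : (k + 1) * (pre M k).length ≤ rr M k := by unfold rr; omega
  omega

theorem big2 (M : ℕ → List P) (hM : ∀ k, M k ≠ []) (k : ℕ) :
    (k + 1) * (M (k + 1)).length ≤ (pre M (k + 1)).length := by
  rw [length_pre_succ]
  have h1 : 1 ≤ (M k).length := List.length_pos_iff.mpr (hM k)
  have h3 : rr M k * 1 ≤ rr M k * (M k).length := Nat.mul_le_mul le_rfl h1
  have h2 : (k + 1) * (M (k + 1)).length ≤ rr M k := by unfold rr; omega
  omega

theorem pre_prefix (M : ℕ → List P) {j k : ℕ} (h : j ≤ k) : pre M j <+: pre M k := by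
  induction k, h using Nat.le_induction with
  | base => exact List.prefix_refl _
  | succ n hn ih => exact ih.trans (by rw [pre_succ]; exact List.prefix_append _ _)

/-- the concatenated sequence -/
def seqq [Inhabited P] (M : ℕ → List P) (n : ℕ) : P := (pre M (n + 1)).getD n default

theorem seqq_eq [Inhabited P] (M : ℕ → List P) (hM : ∀ k, M k ≠ []) (k n : ℕ)
    (h : n < (pre M k).length) : seqq M n = (pre M k)[n] := by
  have h1 : n < (pre M (n + 1)).length := lt_of_lt_of_le (Nat.lt_succ_self n) (le_length_pre M hM _)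
  have e1 : seqq M n = (pre M (n + 1))[n] := by
    unfold seqq
    rw [List.getD_eq_getElem _ _ h1]
  rw [e1]
  rcases le_total (n + 1) k with h2 | h2
  · exact List.IsPrefix.getElem (pre_prefix M h2) h1
  · exact (List.IsPrefix.getElem (pre_prefix M h2) h).symm

theorem sum_range_seqq {E : Type} [AddCommMonoid E] [Inhabited P] (M : ℕ → List P)
    (hM : ∀ k, M k ≠ []) (Φ : P → E) (k N : ℕ) (h : N ≤ (pre M k).length) :
    ∑ n ∈ Finset.range N, Φ (seqq M n) = (((pre M k).take N).map Φ).sum := by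
  induction N with
  | zero => simp
  | succ n ih =>
    rw [Finset.sum_range_succ, ih (by omega), seqq_eq M hM k n (by omega)]
    rw [List.take_succ_eq_append_getElem (by omega), List.map_append, List.sum_append]
    simp


theorem norm_list_sum_le {E : Type} [NormedAddCommGroup E] (Φ : P → E) (C : ℝ)
    (hΦ : ∀ p, ‖Φ p‖ ≤ C) (L : List P) : ‖(L.map Φ).sum‖ ≤ C * L.length := by
  induction L with
  | nil => simp
  | cons a L ih =>
    simp only [List.map_cons, List.sum_cons, List.length_cons]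
    push_cast
    calc ‖Φ a + (L.map Φ).sum‖ ≤ ‖Φ a‖ + ‖(L.map Φ).sum‖ := norm_add_le _ _
      _ ≤ C + C * L.length := add_le_add (hΦ a) ih
      _ = _ := by ring

/-- running sums inside block `k` -/
theorem block_sum {E : Type} [NormedAddCommGroup E] [Inhabited P] (M : ℕ → List P)
    (hM : ∀ k, M k ≠ []) (Φ : P → E) (C : ℝ) (hΦ : ∀ p, ‖Φ p‖ ≤ C) (k N : ℕ)
    (h1 : (pre M k).length ≤ N) (h2 : N ≤ (pre M (k + 1)).length) :
    ∃ j t : ℕ, N = (pre M k).length + j * (M k).length + t ∧ t ≤ (M k).length ∧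
      ‖∑ n ∈ Finset.range N, Φ (seqq M n) - (∑ n ∈ Finset.range (pre M k).length, Φ (seqq M n))
        - j • ((M k).map Φ).sum‖ ≤ C * t := by
  have hm : 0 < (M k).length := List.length_pos_iff.mpr (hM k)
  set m := (M k).length with hmdef
  set j := (N - (pre M k).length) / m with hj
  set t := (N - (pre M k).length) % m with ht
  have hdiv : m * j + t = N - (pre M k).length := Nat.div_add_mod _ _
  have htm : t < m := Nat.mod_lt _ hm
  have hlen := length_pre_succ M k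
  rw [← hmdef] at hlen
  have hjr : j ≤ rr M k := by
    have : m * j ≤ rr M k * m := by
      have : m * j ≤ N - (pre M k).length := by omega
      omega
    rw [mul_comm] at this
    exact Nat.le_of_mul_le_mul_right this hm
  refine ⟨j, t, ?_, htm.le, ?_⟩
  · rw [mul_comm j m]; omega
  · rw [sum_range_seqq M hM Φ (k + 1) N h2,
      sum_range_seqq M hM Φ k (pre M k).length le_rfl, List.take_length, pre_succ]
    have hsplit : List.take N (pre M k ++ rep (rr M k) (M k))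
        = pre M k ++ (rep j (M k) ++ List.take t (rep (rr M k - j) (M k))) := by
      rw [List.take_append, List.take_of_length_le h1]
      congr 1
      have : rep (rr M k) (M k) = rep j (M k) ++ rep (rr M k - j) (M k) := by
        rw [← rep_add]; congr 1; omega
      rw [this, List.take_append, List.take_of_length_le]
      · congr 2
        rw [length_rep, ← hmdef, ← hdiv, mul_comm j]
        omega
      · rw [length_rep, ← hmdef, mul_comm j]; omega
    rw [hsplit, List.map_append, List.sum_append, List.map_append, List.sum_append, sum_rep]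
    have e : ((pre M k).map Φ).sum + (j • ((M k).map Φ).sum +
        ((List.take t (rep (rr M k - j) (M k))).map Φ).sum) - ((pre M k).map Φ).sum
        - j • ((M k).map Φ).sum = ((List.take t (rep (rr M k - j) (M k))).map Φ).sum := by abel
    rw [e]
    refine (norm_list_sum_le Φ C hΦ _).trans ?_
    have hC : 0 ≤ C := (norm_nonneg _).trans (hΦ default)
    apply mul_le_mul_of_nonneg_left _ hC
    exact_mod_cast List.length_take_le _ _


/-- If the averages over the lists converge, so do the running averages. -/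
theorem tendsto_avg {E : Type} [NormedAddCommGroup E] [NormedSpace ℝ E] [Inhabited P]
    (M : ℕ → List P) (hM : ∀ k, M k ≠ []) (Φ : P → E) (C : ℝ) (hΦ : ∀ p, ‖Φ p‖ ≤ C) (Λ : E)
    (hA : Tendsto (fun k => ((M k).length : ℝ)⁻¹ • ((M k).map Φ).sum) atTop (𝓝 Λ)) :
    Tendsto (fun N : ℕ => (N : ℝ)⁻¹ • ∑ n ∈ Finset.range N, Φ (seqq M n)) atTop (𝓝 Λ) := by
  set l : ℕ → ℕ := fun k => (pre M k).length with hl
  set m : ℕ → ℕ := fun k => (M k).length with hm
  set A : ℕ → E := fun k => ((M k).length : ℝ)⁻¹ • ((M k).map Φ).sum with hAdef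
  set S : ℕ → E := fun N => ∑ n ∈ Finset.range N, Φ (seqq M n) with hS
  set D : ℕ → E := fun N => S N - (N : ℝ) • Λ with hD
  set C' : ℝ := C + ‖Λ‖ with hC'
  have hC : 0 ≤ C := (norm_nonneg _).trans (hΦ default)
  have hC'0 : 0 ≤ C' := by positivity
  have hmpos : ∀ k, 0 < m k := fun k => List.length_pos_iff.mpr (hM k)
  have hsig : ∀ k, ((M k).map Φ).sum = (m k : ℝ) • A k := by
    intro k
    rw [hAdef]
    simp only
    rw [smul_smul, mul_inv_cancel₀ (by exact_mod_cast (hmpos k).ne'), one_smul]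
  have hDtriv : ∀ N, ‖D N‖ ≤ C' * N := by
    intro N
    have h1 : ‖S N‖ ≤ C * N := by
      calc ‖S N‖ ≤ ∑ n ∈ Finset.range N, ‖Φ (seqq M n)‖ := norm_sum_le _ _
        _ ≤ ∑ n ∈ Finset.range N, C := Finset.sum_le_sum fun _ _ => hΦ _
        _ = C * N := by simp [mul_comm]
    calc ‖D N‖ ≤ ‖S N‖ + ‖(N : ℝ) • Λ‖ := norm_sub_le _ _
      _ ≤ C * N + N * ‖Λ‖ := by
        rw [norm_smul, Real.norm_natCast]; gcongr
      _ = C' * N := by rw [hC']; ring
  -- inside a block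
  have hblock : ∀ k N, l k ≤ N → N ≤ l (k + 1) →
      ‖D N‖ ≤ ‖D (l k)‖ + N * ‖A k - Λ‖ + C' * m k := by
    intro k N h1 h2
    obtain ⟨j, t, hN, ht, hb⟩ := block_sum M hM Φ C hΦ k N h1 h2
    have hNr : (N : ℝ) = l k + j * m k + t := by rw [hN]; push_cast; rfl
    rw [hsig] at hb
    have e : D N = D (l k) + (j * m k : ℝ) • (A k - Λ) +
        ((S N - S (l k) - j • ((m k : ℝ) • A k)) - (t : ℝ) • Λ) := by
      simp only [hD]
      rw [hNr, ← Nat.cast_smul_eq_nsmul ℝ j, smul_smul, smul_sub, add_smul, add_smul]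
      abel
    rw [e]
    have hjN : (j * m k : ℝ) ≤ N := by
      rw [hNr]; have : (0 : ℝ) ≤ l k := by positivity
      have : (0 : ℝ) ≤ t := by positivity
      linarith
    have htm : (t : ℝ) ≤ m k := by exact_mod_cast ht
    calc _ ≤ ‖D (l k) + (j * m k : ℝ) • (A k - Λ)‖ +
          ‖(S N - S (l k) - j • ((m k : ℝ) • A k)) - (t : ℝ) • Λ‖ := norm_add_le _ _
      _ ≤ (‖D (l k)‖ + ‖(j * m k : ℝ) • (A k - Λ)‖) +
          (‖S N - S (l k) - j • ((m k : ℝ) • A k)‖ + ‖(t : ℝ) • Λ‖) :=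
          add_le_add (norm_add_le _ _) (norm_sub_le _ _)
      _ ≤ (‖D (l k)‖ + N * ‖A k - Λ‖) + (C * t + t * ‖Λ‖) := by
          gcongr
          · rw [norm_smul, Real.norm_of_nonneg (by positivity)]
            gcongr
          · rw [norm_smul, Real.norm_natCast]
      _ = ‖D (l k)‖ + N * ‖A k - Λ‖ + C' * t := by rw [hC']; ring
      _ ≤ _ := by gcongr
  have hlpos : ∀ k, 0 < l (k + 1) := fun k => lt_of_lt_of_le (Nat.succ_pos k) (le_length_pre M hM _)
  have hbig1 : ∀ k, (l k : ℝ) ≤ l (k + 1) / (k + 1) := by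
    intro k
    rw [le_div_iff₀ (by positivity)]
    have := big1 M hM k
    calc (l k : ℝ) * (k + 1) = ((k + 1) * (pre M k).length : ℕ) := by push_cast; ring
      _ ≤ _ := by exact_mod_cast this
  have hbig2 : ∀ k, (m (k + 1) : ℝ) ≤ l (k + 1) / (k + 1) := by
    intro k
    rw [le_div_iff₀ (by positivity)]
    have := big2 M hM k
    calc (m (k + 1) : ℝ) * (k + 1) = ((k + 1) * (M (k + 1)).length : ℕ) := by push_cast; ring
      _ ≤ _ := by exact_mod_cast this
  have hbig3 : ∀ k, (m k : ℝ) ≤ l (k + 1) / (k + 1) := by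
    intro k
    rw [le_div_iff₀ (by positivity)]
    have h1 := length_pre_succ M k
    have h2 : k + 1 ≤ rr M k := by
      unfold rr
      have := hmpos (k + 1)
      have h3 : (k + 1) * 1 ≤ (k + 1) * (M (k + 1)).length := Nat.mul_le_mul le_rfl this
      omega
    have h4 : (k + 1) * (M k).length ≤ rr M k * (M k).length := Nat.mul_le_mul h2 le_rfl
    calc (m k : ℝ) * (k + 1) = ((k + 1) * (M k).length : ℕ) := by push_cast; ring
      _ ≤ ((pre M (k + 1)).length : ℕ) := by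
        have : (k + 1) * (M k).length ≤ (pre M (k + 1)).length := by omega
        exact_mod_cast this
  have hlpos : ∀ k, 0 < l (k + 1) := fun k => lt_of_lt_of_le (Nat.succ_pos k) (le_length_pre M hM _)
  have hDl : ∀ k, ‖D (l (k + 1))‖ ≤ l (k + 1) * (2 * C' / (k + 1) + ‖A k - Λ‖) := by
    intro k
    have h1 := hblock k (l (k + 1)) (length_pre_lt M hM k).le le_rfl
    have h2 : ‖D (l k)‖ ≤ C' * (l (k + 1) / (k + 1)) := by
      refine (hDtriv _).trans ?_
      gcongr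
      exact hbig1 k
    have h3 : C' * m k ≤ C' * (l (k + 1) / (k + 1)) := by
      gcongr
      exact hbig3 k
    calc _ ≤ _ := h1
      _ ≤ C' * (l (k + 1) / (k + 1)) + l (k + 1) * ‖A k - Λ‖ + C' * (l (k + 1) / (k + 1)) := by
        gcongr
      _ = _ := by ring
  have hDN : ∀ k N, l (k + 1) ≤ N → N ≤ l (k + 2) →
      ‖(N : ℝ)⁻¹ • S N - Λ‖ ≤ 3 * C' / (k + 1) + ‖A k - Λ‖ + ‖A (k + 1) - Λ‖ := by
    intro k N h1 h2
    have hN0 : (0 : ℝ) < N := by exact_mod_cast lt_of_lt_of_le (hlpos k) h1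
    have hlN : (l (k + 1) : ℝ) ≤ N := by exact_mod_cast h1
    have e : (N : ℝ)⁻¹ • S N - Λ = (N : ℝ)⁻¹ • D N := by
      simp only [hD]
      rw [smul_sub, smul_smul, inv_mul_cancel₀ hN0.ne', one_smul]
    rw [e, norm_smul, norm_inv, Real.norm_natCast, inv_mul_le_iff₀ hN0]
    have h3 := hblock (k + 1) N h1 h2
    have h4 := hDl k
    calc _ ≤ _ := h3
      _ ≤ l (k + 1) * (2 * C' / (k + 1) + ‖A k - Λ‖) + N * ‖A (k + 1) - Λ‖
          + C' * (l (k + 1) / (k + 1)) := by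
        gcongr
        exact hbig2 k
      _ = l (k + 1) * (3 * C' / (k + 1) + ‖A k - Λ‖) + N * ‖A (k + 1) - Λ‖ := by ring
      _ ≤ N * (3 * C' / (k + 1) + ‖A k - Λ‖) + N * ‖A (k + 1) - Λ‖ := by gcongr
      _ = _ := by ring
  -- the block index
  set κ : ℕ → ℕ := fun N => Nat.findGreatest (fun k => l (k + 1) ≤ N) N with hκ
  have hlmono : Monotone l := monotone_nat_of_le_succ fun k => (length_pre_lt M hM k).le
  have hκ1 : ∀ N, l 1 ≤ N → l (κ N + 1) ≤ N := by
    intro N hN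
    exact Nat.findGreatest_spec (P := fun k => l (k + 1) ≤ N) (Nat.zero_le N) hN
  have hκ2 : ∀ N, N ≤ l (κ N + 2) := by
    intro N
    by_contra hcon
    push Not at hcon
    have h1 : κ N + 1 ≤ N := by
      have := le_length_pre M hM (κ N + 2)
      have h3 : l (κ N + 2) = (pre M (κ N + 2)).length := rfl
      omega
    have := Nat.le_findGreatest (P := fun k => l (k + 1) ≤ N) h1 hcon.le
    have h3 : κ N + 1 ≤ κ N := this
    omega
  have hκtop : Tendsto κ atTop atTop := by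
    rw [tendsto_atTop]
    intro b
    filter_upwards [eventually_ge_atTop (l (b + 1)), eventually_ge_atTop b] with N hN hb
    exact Nat.le_findGreatest hb hN
  have hbound : Tendsto (fun k : ℕ => 3 * C' / ((k : ℝ) + 1) + ‖A k - Λ‖ + ‖A (k + 1) - Λ‖)
      atTop (𝓝 0) := by
    have t1 : Tendsto (fun k : ℕ => 3 * C' / ((k : ℝ) + 1)) atTop (𝓝 0) :=
      tendsto_const_div_atTop_nhds_zero_nat (3 * C') |>.comp (tendsto_add_atTop_nat 1) |>.congr
        (fun k => by simp)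
    have t2 : Tendsto (fun k : ℕ => ‖A k - Λ‖) atTop (𝓝 0) := by
      rw [tendsto_iff_norm_sub_tendsto_zero] at hA
      exact hA
    have t3 : Tendsto (fun k : ℕ => ‖A (k + 1) - Λ‖) atTop (𝓝 0) :=
      t2.comp (tendsto_add_atTop_nat 1)
    simpa using (t1.add t2).add t3
  rw [tendsto_iff_norm_sub_tendsto_zero]
  refine squeeze_zero' (Eventually.of_forall fun _ => norm_nonneg _) ?_ (hbound.comp hκtop)
  filter_upwards [eventually_ge_atTop (l 1)] with N hN
  exact hDN (κ N) N (hκ1 N hN) (hκ2 N)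

theorem aux_smul {E : Type} [NormedAddCommGroup E] [NormedSpace ℝ E] (L a b : ℝ) (s A : E)
    (hL : L ≠ 0) (h : L = a + b) : L⁻¹ • (s + b • A) - A = L⁻¹ • (s - a • A) := by
  have h1 : A = L⁻¹ • (L • A) := by rw [smul_smul, inv_mul_cancel₀ hL, one_smul]
  have h2 : L⁻¹ • (s + b • A) - A = L⁻¹ • (s + b • A - L • A) := by
    rw [smul_sub, ← h1]
  rw [h2, h, add_smul]
  congr 1
  abel

/-- Along the block ends the running averages follow the averages over the lists. -/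
theorem avg_block_end {E : Type} [NormedAddCommGroup E] [NormedSpace ℝ E] [Inhabited P]
    (M : ℕ → List P) (hM : ∀ k, M k ≠ []) (Φ : P → E) (C : ℝ) (hΦ : ∀ p, ‖Φ p‖ ≤ C) (k : ℕ) :
    ‖(((pre M (k + 1)).length : ℝ))⁻¹ • ∑ n ∈ Finset.range (pre M (k + 1)).length, Φ (seqq M n)
      - ((M k).length : ℝ)⁻¹ • ((M k).map Φ).sum‖ ≤ 2 * C / (k + 1) := by
  have hC : 0 ≤ C := (norm_nonneg _).trans (hΦ default)
  have hm0 : (0 : ℝ) < (M k).length := by exact_mod_cast List.length_pos_iff.mpr (hM k)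
  have hl0 : (0 : ℝ) < (pre M (k + 1)).length := by
    exact_mod_cast lt_of_lt_of_le (Nat.succ_pos k) (le_length_pre M hM _)
  set A : E := ((M k).length : ℝ)⁻¹ • ((M k).map Φ).sum with hA
  have hsig : ((M k).map Φ).sum = ((M k).length : ℝ) • A := by
    rw [hA, smul_smul, mul_inv_cancel₀ hm0.ne', one_smul]
  have hAn : ‖A‖ ≤ C := by
    rw [hA, norm_smul, norm_inv, Real.norm_natCast, inv_mul_le_iff₀ hm0]
    rw [mul_comm]
    exact norm_list_sum_le Φ C hΦ _
  rw [sum_range_seqq M hM Φ (k + 1) _ le_rfl, List.take_length, pre_succ, List.map_append,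
    List.sum_append, sum_rep, hsig]
  have hlen : ((pre M k ++ rep (rr M k) (M k)).length : ℝ)
      = (pre M k).length + rr M k * (M k).length := by
    rw [List.length_append, length_rep]; push_cast; ring
  have hl0' := hl0
  rw [pre_succ] at hl0'
  have e : (((pre M k ++ rep (rr M k) (M k)).length : ℝ))⁻¹ •
      (((pre M k).map Φ).sum + rr M k • (((M k).length : ℝ) • A)) - A
      = (((pre M k ++ rep (rr M k) (M k)).length : ℝ))⁻¹ •
        (((pre M k).map Φ).sum - ((pre M k).length : ℝ) • A) := by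
    rw [← Nat.cast_smul_eq_nsmul ℝ (rr M k), smul_smul]
    exact aux_smul _ _ _ _ _ hl0'.ne' hlen
  rw [e, norm_smul, norm_inv, Real.norm_natCast, inv_mul_le_iff₀ hl0']
  have h1 : ‖((pre M k).map Φ).sum - ((pre M k).length : ℝ) • A‖ ≤ 2 * C * (pre M k).length := by
    calc _ ≤ ‖((pre M k).map Φ).sum‖ + ‖((pre M k).length : ℝ) • A‖ := norm_sub_le _ _
      _ ≤ C * (pre M k).length + (pre M k).length * C := by
        gcongr
        · exact norm_list_sum_le Φ C hΦ _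
        · rw [norm_smul, Real.norm_natCast]
          gcongr
      _ = _ := by ring
  refine h1.trans ?_
  have hb : ((pre M k).length : ℝ) ≤ ((pre M k ++ rep (rr M k) (M k)).length : ℝ) / (k + 1) := by
    rw [le_div_iff₀ (by positivity)]
    have := big1 M hM k
    rw [pre_succ] at this
    calc ((pre M k).length : ℝ) * (k + 1) = ((k + 1) * (pre M k).length : ℕ) := by push_cast; ring
      _ ≤ _ := by exact_mod_cast this
  calc 2 * C * ((pre M k).length : ℝ)
      ≤ 2 * C * (((pre M k ++ rep (rr M k) (M k)).length : ℝ) / (k + 1)) := by gcongr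
    _ = _ := by ring

end Conc
namespace Bil

/-- `e(t) = exp(2 π i t)` -/
noncomputable def ee (t : ℝ) : ℂ := Complex.exp (Complex.I * ((2 * Real.pi * t : ℝ) : ℂ))

theorem ee_zero : ee 0 = 1 := by simp [ee]

theorem ee_add (s t : ℝ) : ee (s + t) = ee s * ee t := by
  unfold ee; rw [← Complex.exp_add]; congr 1; push_cast; ring

theorem ee_neg (s : ℝ) : ee (-s) = (ee s)⁻¹ := by
  unfold ee; rw [← Complex.exp_neg]; congr 1; push_cast; ring

theorem norm_ee (t : ℝ) : ‖ee t‖ = 1 := by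
  unfold ee; exact Complex.norm_exp_I_mul_ofReal _

theorem ee_nsmul (n : ℕ) (t : ℝ) : ee (n * t) = ee t ^ n := by
  unfold ee; rw [← Complex.exp_nat_mul]; congr 1; push_cast; ring

theorem conj_ee (t : ℝ) : (starRingEnd ℂ) (ee t) = ee (-t) := by
  rw [ee_neg, ← Complex.inv_eq_conj (norm_ee t)]

theorem ee_int (n : ℤ) : ee n = 1 := by
  unfold ee
  rw [Complex.exp_eq_one_iff]
  exact ⟨n, by push_cast; ring⟩

theorem ee_eq_one_iff (t : ℝ) : ee t = 1 ↔ ∃ n : ℤ, t = n := by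
  constructor
  · intro h
    unfold ee at h
    rw [Complex.exp_eq_one_iff] at h
    obtain ⟨n, hn⟩ := h
    refine ⟨n, ?_⟩
    have h2 : ((2 * Real.pi * t : ℝ) : ℂ) = ((2 * Real.pi * n : ℝ) : ℂ) := by
      have h3 : Complex.I * ((2 * Real.pi * t : ℝ) : ℂ) = Complex.I * ((2 * Real.pi * n : ℝ) : ℂ) := by
        rw [hn]; push_cast; ring
      exact mul_left_cancel₀ Complex.I_ne_zero h3
    have h4 : (2 * Real.pi * t : ℝ) = 2 * Real.pi * n := by exact_mod_cast h2
    have hpi : (2 * Real.pi : ℝ) ≠ 0 := by positivity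
    exact mul_left_cancel₀ hpi h4
  · rintro ⟨n, rfl⟩; exact ee_int n

theorem norm_ee_sub_le (s t : ℝ) : ‖ee s - ee t‖ ≤ 2 * Real.pi * |s - t| := by
  have h : ee s - ee t = ee t * (ee (s - t) - 1) := by
    rw [mul_sub, ← ee_add, mul_one]; congr 2; ring
  rw [h, norm_mul, norm_ee, one_mul]
  unfold ee
  refine (Real.norm_exp_I_mul_ofReal_sub_one_le).trans ?_
  rw [Real.norm_eq_abs, abs_mul, abs_of_pos (by positivity : (0 : ℝ) < 2 * Real.pi)]

/-- orthogonality -/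
theorem orth (q : ℕ) (hq : 0 < q) (p : ℤ) (hp : IsCoprime p (q : ℤ)) (h : ℤ) :
    ∑ b ∈ Finset.range q, ee (h * b * p / q) = if (q : ℤ) ∣ h then (q : ℂ) else 0 := by
  have hq0 : (q : ℝ) ≠ 0 := by positivity
  have e : ∀ b ∈ Finset.range q, ee (h * b * p / q) = ee (h * p / q) ^ b := by
    intro b _
    rw [← ee_nsmul]; congr 1; ring
  rw [Finset.sum_congr rfl e]
  split_ifs with hd
  · obtain ⟨c, rfl⟩ := hd
    have : ee (((q : ℤ) * c : ℤ) * p / q) = 1 := by
      rw [ee_eq_one_iff]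
      exact ⟨c * p, by push_cast; field_simp⟩
    rw [this]; simp
  · have h1 : ee (h * p / q) ≠ 1 := by
      intro hone
      rw [ee_eq_one_iff] at hone
      obtain ⟨n, hn⟩ := hone
      rw [div_eq_iff hq0] at hn
      have h2 : h * p = n * q := by exact_mod_cast hn
      apply hd
      have : (q : ℤ) ∣ h * p := ⟨n, by rw [h2]; ring⟩
      exact hp.symm.dvd_of_dvd_mul_right this
    rw [geom_sum_eq h1]
    have h2 : ee (h * p / q) ^ q = 1 := by
      rw [← ee_nsmul, ee_eq_one_iff]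
      exact ⟨h * p, by push_cast; field_simp⟩
    rw [h2]; simp

/-- Parseval on `ℤ/q` -/
theorem parseval (q : ℕ) (hq : 0 < q) (p : ℤ) (hp : IsCoprime p (q : ℤ)) (u : ℕ → ℂ) :
    ∑ b ∈ Finset.range q, ‖∑ a ∈ Finset.range q, ee (a * b * p / q) * u a‖ ^ 2
      = q * ∑ a ∈ Finset.range q, ‖u a‖ ^ 2 := by
  have key : ((∑ b ∈ Finset.range q, ‖∑ a ∈ Finset.range q, ee (a * b * p / q) * u a‖ ^ 2 : ℝ) : ℂ)
      = ((q * ∑ a ∈ Finset.range q, ‖u a‖ ^ 2 : ℝ) : ℂ) := by
    push_cast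
    have e1 : ∀ b : ℕ, ((‖∑ a ∈ Finset.range q, ee (a * b * p / q) * u a‖ : ℝ) : ℂ) ^ 2
        = ∑ a ∈ Finset.range q, ∑ a' ∈ Finset.range q,
          (u a * (starRingEnd ℂ) (u a')) * ee ((((a : ℤ) - (a' : ℤ) : ℤ) : ℝ) * b * p / q) := by
      intro b
      rw [← Complex.mul_conj']
      rw [map_sum, Finset.sum_mul_sum]
      refine Finset.sum_congr rfl fun a _ => Finset.sum_congr rfl fun a' _ => ?_
      rw [map_mul, conj_ee]
      have : ee ((((a : ℤ) - (a' : ℤ) : ℤ) : ℝ) * b * p / q)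
          = ee (a * b * p / q) * ee (-(a' * b * p / q)) := by
        rw [← ee_add]; congr 1; push_cast; ring
      rw [this]; ring
    simp_rw [e1]
    rw [Finset.sum_comm, Finset.mul_sum]
    refine Finset.sum_congr rfl fun a ha => ?_
    rw [Finset.sum_comm]
    simp_rw [← Finset.mul_sum]
    simp_rw [orth q hq p hp]
    have e2 : ∀ a' ∈ Finset.range q, (u a * (starRingEnd ℂ) (u a')) *
        (if (q : ℤ) ∣ ((a : ℤ) - (a' : ℤ)) then (q : ℂ) else 0)
        = if a' = a then (q : ℂ) * (‖u a‖ : ℂ) ^ 2 else 0 := by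
      intro a' ha'
      by_cases h : a' = a
      · subst h
        simp only [sub_self, dvd_zero, if_true]
        rw [Complex.mul_conj']; ring
      · rw [if_neg h, if_neg, mul_zero]
        intro hd
        apply h
        have h1 := Finset.mem_range.mp ha
        have h2 := Finset.mem_range.mp ha'
        obtain ⟨c, hc⟩ := hd
        have hc0 : c = 0 := by
          by_contra hne
          rcases lt_or_gt_of_ne hne with h3 | h3
          · have : (q : ℤ) * c ≤ -(q : ℤ) := by nlinarith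
            omega
          · have : (q : ℤ) ≤ (q : ℤ) * c := by nlinarith
            omega
        rw [hc0] at hc; omega
    rw [Finset.sum_congr rfl e2, Finset.sum_ite_eq' (Finset.range q) a, if_pos ha]
  exact_mod_cast key

/-- the bilinear estimate with a rational frequency -/
theorem bilin (q : ℕ) (hq : 0 < q) (p : ℤ) (hp : IsCoprime p (q : ℤ)) (u v : ℕ → ℂ) (C₁ C₂ : ℝ)
    (hu : ∀ a, ‖u a‖ ≤ C₁) (hv : ∀ a, ‖v a‖ ≤ C₂) :
    ‖∑ a ∈ Finset.range q, ∑ b ∈ Finset.range q, ee (a * b * p / q) * (u a * v b)‖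
      ≤ C₁ * C₂ * Real.sqrt ((q : ℝ) ^ 3) := by
  have hC₁ : 0 ≤ C₁ := (norm_nonneg _).trans (hu 0)
  have hC₂ : 0 ≤ C₂ := (norm_nonneg _).trans (hv 0)
  set W : ℕ → ℂ := fun b => ∑ a ∈ Finset.range q, ee (a * b * p / q) * u a with hW
  have e1 : ∑ a ∈ Finset.range q, ∑ b ∈ Finset.range q, ee (a * b * p / q) * (u a * v b)
      = ∑ b ∈ Finset.range q, W b * v b := by
    rw [Finset.sum_comm]
    refine Finset.sum_congr rfl fun b _ => ?_
    rw [hW, Finset.sum_mul]
    refine Finset.sum_congr rfl fun a _ => ?_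
    ring
  have h1 : ∑ b ∈ Finset.range q, ‖W b‖ ^ 2 ≤ (q : ℝ) ^ 2 * C₁ ^ 2 := by
    rw [hW]
    simp only
    rw [parseval q hq p hp u]
    have : ∑ a ∈ Finset.range q, ‖u a‖ ^ 2 ≤ ∑ a ∈ Finset.range q, C₁ ^ 2 :=
      Finset.sum_le_sum fun a _ => by gcongr; exact hu a
    calc (q : ℝ) * ∑ a ∈ Finset.range q, ‖u a‖ ^ 2 ≤ q * ∑ a ∈ Finset.range q, C₁ ^ 2 := by gcongr
      _ = _ := by simp; ring
  have h2 : (∑ b ∈ Finset.range q, ‖W b‖) ^ 2 ≤ (q : ℝ) ^ 3 * C₁ ^ 2 := by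
    calc _ ≤ ((Finset.range q).card : ℝ) * ∑ b ∈ Finset.range q, ‖W b‖ ^ 2 :=
          sq_sum_le_card_mul_sum_sq
      _ ≤ q * ((q : ℝ) ^ 2 * C₁ ^ 2) := by
          rw [Finset.card_range]; gcongr
      _ = _ := by ring
  have h3 : ∑ b ∈ Finset.range q, ‖W b‖ ≤ C₁ * Real.sqrt ((q : ℝ) ^ 3) := by
    have h30 : (∑ b ∈ Finset.range q, ‖W b‖) ^ 2 ≤ (C₁ * Real.sqrt ((q : ℝ) ^ 3)) ^ 2 := by
      rw [mul_pow, Real.sq_sqrt (by positivity)]
      linarith
    exact (pow_le_pow_iff_left₀ (Finset.sum_nonneg fun _ _ => norm_nonneg _) (by positivity)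
      two_ne_zero).mp h30
  rw [e1]
  calc _ ≤ ∑ b ∈ Finset.range q, ‖W b * v b‖ := norm_sum_le _ _
    _ ≤ ∑ b ∈ Finset.range q, ‖W b‖ * C₂ := by
        refine Finset.sum_le_sum fun b _ => ?_
        rw [norm_mul]; gcongr; exact hv b
    _ = (∑ b ∈ Finset.range q, ‖W b‖) * C₂ := by rw [Finset.sum_mul]
    _ ≤ (C₁ * Real.sqrt ((q : ℝ) ^ 3)) * C₂ := by gcongr
    _ = _ := by ring

/-- the bilinear estimate with a real frequency close to a rational one -/
theorem bilin_real (q : ℕ) (hq : 0 < q) (p : ℤ) (hp : IsCoprime p (q : ℤ)) (β : ℝ)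
    (hβ : |β - p / q| ≤ 2 / (q : ℝ) ^ 3) (u v : ℕ → ℂ) (C₁ C₂ : ℝ)
    (hu : ∀ a, ‖u a‖ ≤ C₁) (hv : ∀ a, ‖v a‖ ≤ C₂) :
    ‖∑ a ∈ Finset.range q, ∑ b ∈ Finset.range q, ee (a * b * β) * (u a * v b)‖
      ≤ C₁ * C₂ * (Real.sqrt ((q : ℝ) ^ 3) + 4 * Real.pi * q) := by
  have hC₁ : 0 ≤ C₁ := (norm_nonneg _).trans (hu 0)
  have hC₂ : 0 ≤ C₂ := (norm_nonneg _).trans (hv 0)
  have hq0 : (0 : ℝ) < q := by exact_mod_cast hq
  have e : ∑ a ∈ Finset.range q, ∑ b ∈ Finset.range q, ee (a * b * β) * (u a * v b)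
      = (∑ a ∈ Finset.range q, ∑ b ∈ Finset.range q, ee (a * b * p / q) * (u a * v b))
        + ∑ a ∈ Finset.range q, ∑ b ∈ Finset.range q,
          (ee (a * b * β) - ee (a * b * p / q)) * (u a * v b) := by
    rw [← Finset.sum_add_distrib]
    refine Finset.sum_congr rfl fun a _ => ?_
    rw [← Finset.sum_add_distrib]
    refine Finset.sum_congr rfl fun b _ => ?_
    ring
  rw [e]
  have h1 := bilin q hq p hp u v C₁ C₂ hu hv
  have h2 : ‖∑ a ∈ Finset.range q, ∑ b ∈ Finset.range q,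
          (ee (a * b * β) - ee (a * b * p / q)) * (u a * v b)‖ ≤ C₁ * C₂ * (4 * Real.pi * q) := by
    calc _ ≤ ∑ a ∈ Finset.range q, ∑ b ∈ Finset.range q,
          (2 * Real.pi * ((q : ℝ) ^ 2 * (2 / (q : ℝ) ^ 3))) * (C₁ * C₂) := by
          refine (norm_sum_le _ _).trans (Finset.sum_le_sum fun a ha => ?_)
          refine (norm_sum_le _ _).trans (Finset.sum_le_sum fun b hb => ?_)
          rw [norm_mul, norm_mul]
          have ha' : (a : ℝ) ≤ q := by exact_mod_cast (Finset.mem_range.mp ha).le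
          have hb' : (b : ℝ) ≤ q := by exact_mod_cast (Finset.mem_range.mp hb).le
          have h4 : ‖ee (a * b * β) - ee (a * b * p / q)‖ ≤
              2 * Real.pi * ((q : ℝ) ^ 2 * (2 / (q : ℝ) ^ 3)) := by
            refine (norm_ee_sub_le _ _).trans ?_
            have : (a * b * β - a * b * p / q : ℝ) = (a * b) * (β - p / q) := by ring
            rw [this, abs_mul, abs_of_nonneg (by positivity : (0 : ℝ) ≤ a * b)]
            have h5 : (a * b : ℝ) ≤ (q : ℝ) ^ 2 := by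
              rw [sq]; gcongr
            gcongr
          have h6 : ‖u a‖ * ‖v b‖ ≤ C₁ * C₂ := mul_le_mul (hu a) (hv b) (norm_nonneg _) hC₁
          exact mul_le_mul h4 h6 (by positivity) (by positivity)
      _ = _ := by
          simp only [Finset.sum_const, Finset.card_range, nsmul_eq_mul]
          field_simp
          ring
  calc _ ≤ _ := norm_add_le _ _
    _ ≤ C₁ * C₂ * Real.sqrt ((q : ℝ) ^ 3) + C₁ * C₂ * (4 * Real.pi * q) := add_le_add h1 h2
    _ = _ := by ring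

/-- the decay rate -/
noncomputable def eta (q : ℕ) : ℝ := (Real.sqrt ((q : ℝ) ^ 3) + 4 * Real.pi * q) / (q : ℝ) ^ 2

theorem eta_tendsto : Tendsto eta atTop (𝓝 0) := by
  have h : ∀ q : ℕ, 0 < q → eta q = 1 / Real.sqrt q + 4 * Real.pi / q := by
    intro q hq
    have hq0 : (0 : ℝ) < q := by exact_mod_cast hq
    unfold eta
    have h1 : Real.sqrt ((q : ℝ) ^ 3) = q * Real.sqrt q := by
      rw [show (q : ℝ) ^ 3 = q ^ 2 * q by ring, Real.sqrt_mul (by positivity),
        Real.sqrt_sq hq0.le]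
    rw [h1]
    have h2 : Real.sqrt q * Real.sqrt q = q := Real.mul_self_sqrt hq0.le
    have h3 : Real.sqrt q ≠ 0 := by positivity
    field_simp
    linear_combination h2
  have t1 : Tendsto (fun q : ℕ => 1 / Real.sqrt q + 4 * Real.pi / (q : ℝ)) atTop (𝓝 (0 + 0)) := by
    apply Tendsto.add
    · have : Tendsto (fun q : ℕ => Real.sqrt q) atTop atTop :=
        Real.tendsto_sqrt_atTop.comp tendsto_natCast_atTop_atTop
      simp only [one_div]
      exact this.inv_tendsto_atTop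
    · exact tendsto_const_div_atTop_nhds_zero_nat _
  rw [add_zero] at t1
  refine t1.congr' ?_
  filter_upwards [eventually_gt_atTop 0] with q hq
  exact (h q hq).symm

/-- rational approximations of the Liouville number `∑ 3^{-j!}` -/
theorem approx (k : ℕ) (hk : 3 ≤ k) : ∃ p : ℕ, p % 3 = 1 ∧
    |liouvilleNumber 3 - (p : ℝ) / ((3 ^ k.factorial : ℕ) : ℝ)| ≤ 1 / ((3 ^ k.factorial : ℕ) : ℝ) ^ 3 := by
  obtain ⟨j, rfl⟩ : ∃ j, k = j + 1 := ⟨k - 1, by omega⟩
  obtain ⟨p0, hp0⟩ := LiouvilleNumber.partialSum_eq_rat (m := 3) (by norm_num) j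
  have hfac : j.factorial < (j + 1).factorial := Nat.factorial_lt (by omega) |>.mpr (by omega)
  refine ⟨p0 * 3 ^ ((j + 1).factorial - j.factorial) + 1, ?_, ?_⟩
  · obtain ⟨d, hd⟩ : ∃ d, (j + 1).factorial - j.factorial = d + 1 :=
      ⟨(j + 1).factorial - j.factorial - 1, by omega⟩
    rw [hd, pow_succ, ← mul_assoc, Nat.add_mod, Nat.mul_mod_left]
  · have h1 : ((p0 * 3 ^ ((j + 1).factorial - j.factorial) + 1 : ℕ) : ℝ) /
        ((3 ^ (j + 1).factorial : ℕ) : ℝ) = LiouvilleNumber.partialSum 3 (j + 1) := by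
      rw [LiouvilleNumber.partialSum_succ]
      have hp0' : LiouvilleNumber.partialSum 3 j = (p0 : ℝ) / 3 ^ j.factorial := by
        have := hp0; push_cast at this; exact this
      rw [hp0']
      push_cast
      have : (3 : ℝ) ^ (j + 1).factorial = 3 ^ j.factorial * 3 ^ ((j + 1).factorial - j.factorial) := by
        rw [← pow_add]; congr 1; omega
      rw [this]
      field_simp
    rw [h1, ← LiouvilleNumber.partialSum_add_remainder (by norm_num : (1 : ℝ) < 3) (j + 1)]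
    rw [add_sub_cancel_left, abs_of_pos (LiouvilleNumber.remainder_pos (by norm_num) _)]
    refine (LiouvilleNumber.remainder_lt (j + 1) (by norm_num : (2 : ℝ) ≤ 3)).le.trans ?_
    push_cast
    apply one_div_le_one_div_of_le (by positivity)
    apply pow_le_pow_right₀ _ hk
    exact one_le_pow₀ (by norm_num)

end Bil
namespace Wt

/-- the list of the pairs `(a, b)`, `0 ≤ a, b < q`, each repeated `m a b` times -/
def mlist (q : ℕ) (m : ℕ → ℕ → ℕ) : List (ℤ × ℤ) :=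
  (List.range q).flatMap fun a => (List.range q).flatMap fun b =>
    List.replicate (m a b) ((a : ℤ), (b : ℤ))

theorem sum_flatMap_range {P E : Type} [AddCommMonoid E] (Φ : P → E) (f : ℕ → List P) (q : ℕ) :
    (((List.range q).flatMap f).map Φ).sum = ∑ a ∈ Finset.range q, ((f a).map Φ).sum := by
  induction q with
  | zero => simp
  | succ n ih =>
    rw [List.range_succ, List.flatMap_append, List.map_append, List.sum_append, ih,
      Finset.sum_range_succ]
    simp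

theorem sum_mlist {E : Type} [AddCommMonoid E] (Φ : ℤ × ℤ → E) (q : ℕ) (m : ℕ → ℕ → ℕ) :
    ((mlist q m).map Φ).sum
      = ∑ a ∈ Finset.range q, ∑ b ∈ Finset.range q, m a b • Φ ((a : ℤ), (b : ℤ)) := by
  unfold mlist
  rw [sum_flatMap_range]
  refine Finset.sum_congr rfl fun a _ => ?_
  rw [sum_flatMap_range]
  refine Finset.sum_congr rfl fun b _ => ?_
  simp

theorem length_mlist (q : ℕ) (m : ℕ → ℕ → ℕ) :
    (mlist q m).length = ∑ a ∈ Finset.range q, ∑ b ∈ Finset.range q, m a b := by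
  have h := sum_mlist (E := ℕ) (fun _ => 1) q m
  simp at h
  exact h

/-- rounding lemma -/
theorem rounding {ι : Type} (s : Finset ι) (hs : 0 < s.card) (m : ι → ℕ) (c : ι → ℝ) (K η C : ℝ)
    (hK : 1 ≤ K) (hc : ∀ i, |c i| ≤ 1) (hm1 : ∀ i, K * (1 + c i) ≤ m i)
    (hm2 : ∀ i, (m i : ℝ) ≤ K * (1 + c i) + 1) (hcs : |∑ i ∈ s, c i| ≤ η * s.card)
    (hη : η ≤ 1 / 2) (Φ : ι → ℂ) (hΦ : ∀ i, ‖Φ i‖ ≤ C) (hC : 0 ≤ C) :
    ‖((∑ i ∈ s, (m i : ℝ) : ℝ) : ℂ)⁻¹ * ∑ i ∈ s, (m i : ℂ) * Φ i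
      - ((s.card : ℝ) : ℂ)⁻¹ * ∑ i ∈ s, ((1 + c i : ℝ) : ℂ) * Φ i‖ ≤ C * (4 * η + 6 / K) := by
  set Q : ℝ := (s.card : ℝ) with hQ
  have hQ0 : 0 < Q := by rw [hQ]; exact_mod_cast hs
  have hK0 : 0 < K := by linarith
  have hη0 : 0 ≤ η := by
    by_contra hcon
    push Not at hcon
    have : η * Q < 0 := by nlinarith
    linarith [abs_nonneg (∑ i ∈ s, c i)]
  set D : ℝ := ∑ i ∈ s, (m i : ℝ) with hD
  set Z : ℂ := ∑ i ∈ s, ((1 + c i : ℝ) : ℂ) * Φ i with hZ
  set R : ℂ := ∑ i ∈ s, ((m i - K * (1 + c i) : ℝ) : ℂ) * Φ i with hR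
  have hsum : ∑ i ∈ s, (m i : ℂ) * Φ i = (K : ℂ) * Z + R := by
    rw [hZ, hR, Finset.mul_sum, ← Finset.sum_add_distrib]
    refine Finset.sum_congr rfl fun i _ => ?_
    push_cast; ring
  have hZn : ‖Z‖ ≤ 2 * Q * C := by
    calc ‖Z‖ ≤ ∑ i ∈ s, ‖((1 + c i : ℝ) : ℂ) * Φ i‖ := norm_sum_le _ _
      _ ≤ ∑ i ∈ s, 2 * C := by
        refine Finset.sum_le_sum fun i _ => ?_
        rw [norm_mul, Complex.norm_real, Real.norm_eq_abs]
        have h1 : |1 + c i| ≤ 2 := by
          have := abs_le.mp (hc i)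
          rw [abs_le]; constructor <;> linarith [this.1, this.2]
        exact mul_le_mul h1 (hΦ i) (norm_nonneg _) (by norm_num)
      _ = _ := by rw [Finset.sum_const, nsmul_eq_mul]; ring
  have hRn : ‖R‖ ≤ Q * C := by
    calc ‖R‖ ≤ ∑ i ∈ s, ‖((m i - K * (1 + c i) : ℝ) : ℂ) * Φ i‖ := norm_sum_le _ _
      _ ≤ ∑ i ∈ s, 1 * C := by
        refine Finset.sum_le_sum fun i _ => ?_
        rw [norm_mul, Complex.norm_real, Real.norm_eq_abs]
        have h1 : |(m i : ℝ) - K * (1 + c i)| ≤ 1 := by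
          rw [abs_le]; constructor <;> linarith [hm1 i, hm2 i]
        exact mul_le_mul h1 (hΦ i) (norm_nonneg _) (by norm_num)
      _ = _ := by rw [Finset.sum_const, nsmul_eq_mul]; ring
  have hcs' := abs_le.mp hcs
  have hKsum : ∑ i ∈ s, K * (1 + c i) = K * Q + K * ∑ i ∈ s, c i := by
    rw [← Finset.mul_sum, Finset.sum_add_distrib]
    simp only [Finset.sum_const, nsmul_eq_mul, mul_one]
    rw [hQ]; ring
  have hD1 : K * Q - K * (η * Q) ≤ D := by
    calc K * Q - K * (η * Q) ≤ K * Q + K * ∑ i ∈ s, c i := by nlinarith [hcs'.1]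
      _ = ∑ i ∈ s, K * (1 + c i) := hKsum.symm
      _ ≤ D := Finset.sum_le_sum fun i _ => hm1 i
  have hD2 : D ≤ K * Q + K * (η * Q) + Q := by
    calc D ≤ ∑ i ∈ s, (K * (1 + c i) + 1) := Finset.sum_le_sum fun i _ => hm2 i
      _ = K * Q + K * ∑ i ∈ s, c i + Q := by
        rw [Finset.sum_add_distrib, hKsum]; simp [hQ]
      _ ≤ _ := by nlinarith [hcs'.2]
  have hD3 : K * Q / 2 ≤ D := by
    have : K * (η * Q) ≤ K * Q / 2 := by
      have : K * Q * η ≤ K * Q * (1 / 2) := by gcongr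
      linarith
    linarith
  have hD0 : 0 < D := lt_of_lt_of_le (by positivity) hD3
  have hDK : |K * Q - D| ≤ K * Q * η + Q := by
    rw [abs_le]; constructor
    · linarith
    · have : K * (η * Q) = K * Q * η := by ring
      linarith
  rw [hsum]
  have hDc : (D : ℂ) ≠ 0 := by exact_mod_cast hD0.ne'
  have hQc : (Q : ℂ) ≠ 0 := by exact_mod_cast hQ0.ne'
  have e : (D : ℂ)⁻¹ * ((K : ℂ) * Z + R) - (Q : ℂ)⁻¹ * Z
      = ((K * Q - D : ℝ) : ℂ) * Z * ((D : ℂ)⁻¹ * (Q : ℂ)⁻¹) + R * (D : ℂ)⁻¹ := by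
    push_cast
    field_simp
    ring
  rw [e]
  have hDi : D⁻¹ ≤ 2 / (K * Q) := by
    rw [inv_eq_one_div, div_le_div_iff₀ hD0 (by positivity)]
    linarith
  calc _ ≤ ‖((K * Q - D : ℝ) : ℂ) * Z * ((D : ℂ)⁻¹ * (Q : ℂ)⁻¹)‖ + ‖R * (D : ℂ)⁻¹‖ :=
        norm_add_le _ _
    _ = |K * Q - D| * ‖Z‖ * (D⁻¹ * Q⁻¹) + ‖R‖ * D⁻¹ := by
        rw [norm_mul, norm_mul, norm_mul, norm_mul, Complex.norm_real, norm_inv, norm_inv,
          Complex.norm_real, Complex.norm_real, Real.norm_of_nonneg hD0.le,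
          Real.norm_of_nonneg hQ0.le, Real.norm_eq_abs]
    _ ≤ (K * Q * η + Q) * (2 * Q * C) * ((2 / (K * Q)) * Q⁻¹) + (Q * C) * (2 / (K * Q)) := by
        gcongr
    _ = C * (4 * η + 6 / K) := by
        field_simp
        ring

end Wt

namespace Comb
open Conc Bil Wt

/-- the frequency -/
noncomputable def al : ℝ := liouvilleNumber 3

/-- the scales -/
def qk (k : ℕ) : ℕ := 3 ^ (k + 3).factorial

theorem qk_pos (k : ℕ) : 0 < qk k := by unfold qk; positivity

theorem qk_ge (k : ℕ) : k ≤ qk k := by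
  unfold qk
  have h1 : k + 3 ≤ (k + 3).factorial := Nat.self_le_factorial _
  have h2 : (k + 3).factorial < 3 ^ (k + 3).factorial := Nat.lt_pow_self (by norm_num)
  omega

/-- the weights -/
noncomputable def cc (i : ℕ × ℕ) : ℝ := Real.cos (2 * Real.pi * (i.1 * i.2 * al))

/-- the multiplicities -/
noncomputable def mult (k a b : ℕ) : ℕ :=
  if Even k then 1 else ⌊((k : ℝ) + 1) * (1 + cc (a, b))⌋₊ + 1

/-- the lists -/
noncomputable def ML (k : ℕ) : List (ℤ × ℤ) := mlist (qk k) (mult k)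

theorem ML_ne (k : ℕ) : ML k ≠ [] := by
  have h : 0 < (ML k).length := by
    unfold ML
    rw [length_mlist]
    apply Finset.sum_pos
    · intro a _
      apply Finset.sum_pos
      · intro b _
        unfold mult
        split_ifs <;> omega
      · exact ⟨0, Finset.mem_range.mpr (qk_pos k)⟩
    · exact ⟨0, Finset.mem_range.mpr (qk_pos k)⟩
  exact List.length_pos_iff.mp h

theorem approx_al (k : ℕ) : ∃ p : ℕ, p % 3 = 1 ∧ |al - (p : ℝ) / (qk k : ℝ)| ≤ 1 / (qk k : ℝ) ^ 3 :=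
  approx (k + 3) (by omega)

theorem coprime_mul (k : ℕ) (p : ℕ) (hp : p % 3 = 1) (j : ℤ) (hj : j = 1 ∨ j = -1 ∨ j = -2) :
    IsCoprime (j * p) (qk k : ℤ) := by
  have h3 : IsCoprime (p : ℤ) (3 : ℤ) := by
    rw [Int.isCoprime_iff_gcd_eq_one]
    have : Nat.Coprime p 3 := by
      rw [Nat.coprime_comm, Nat.Prime.coprime_iff_not_dvd Nat.prime_three]
      omega
    exact this
  have hj3 : IsCoprime j (3 : ℤ) := by
    rcases hj with rfl | rfl | rfl
    · exact isCoprime_one_left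
    · exact ⟨-1, 0, by norm_num⟩
    · exact ⟨1, 1, by norm_num⟩
  unfold qk
  push_cast
  exact (hj3.mul_left h3).pow_right

/-- the bilinear estimate at scale `k` -/
theorem bil_k (k : ℕ) (j : ℤ) (hj : j = 1 ∨ j = -1 ∨ j = -2) (u v : ℕ → ℂ) (C₁ C₂ : ℝ)
    (hu : ∀ a, ‖u a‖ ≤ C₁) (hv : ∀ a, ‖v a‖ ≤ C₂) :
    ‖∑ a ∈ Finset.range (qk k), ∑ b ∈ Finset.range (qk k), ee (a * b * (j * al)) * (u a * v b)‖
      ≤ C₁ * C₂ * (eta (qk k) * (qk k : ℝ) ^ 2) := by
  obtain ⟨p, hp, hap⟩ := approx_al k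
  have hq := qk_pos k
  have hq0 : (0 : ℝ) < qk k := by exact_mod_cast hq
  have h1 : |(j : ℝ) * al - ((j * p : ℤ) : ℝ) / (qk k : ℕ)| ≤ 2 / (qk k : ℝ) ^ 3 := by
    have : (j : ℝ) * al - ((j * p : ℤ) : ℝ) / (qk k : ℕ) = j * (al - p / qk k) := by
      push_cast; ring
    rw [this, abs_mul]
    have hj2 : |(j : ℝ)| ≤ 2 := by
      rcases hj with rfl | rfl | rfl <;> norm_num
    calc _ ≤ 2 * (1 / (qk k : ℝ) ^ 3) := by gcongr
      _ = _ := by ring
  have h2 := bilin_real (qk k) hq (j * p) (coprime_mul k p hp j hj) (j * al) h1 u v C₁ C₂ hu hv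
  refine h2.trans (le_of_eq ?_)
  unfold eta
  field_simp

theorem eta_nonneg (q : ℕ) : 0 ≤ eta q := by unfold eta; positivity

theorem card_sq (q : ℕ) : ((Finset.range q ×ˢ Finset.range q).card : ℝ) = (q : ℝ) ^ 2 := by
  rw [Finset.card_product, Finset.card_range]; push_cast; ring

theorem cc_eq (i : ℕ × ℕ) : (cc i : ℂ) = (ee (i.1 * i.2 * ((1 : ℤ) * al)) +
    ee (i.1 * i.2 * ((-1 : ℤ) * al))) / 2 := by
  unfold cc ee
  rw [Complex.ofReal_cos, Complex.cos]
  congr 1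
  congr 1
  · congr 1; push_cast; ring
  · congr 1; push_cast; ring

theorem cc_le (i : ℕ × ℕ) : |cc i| ≤ 1 := by unfold cc; exact Real.abs_cos_le_one _

/-- sums of the weights against products -/
theorem cc_sum (k : ℕ) (u v : ℕ → ℂ) (C₁ C₂ : ℝ)
    (hu : ∀ a, ‖u a‖ ≤ C₁) (hv : ∀ a, ‖v a‖ ≤ C₂) :
    ‖∑ i ∈ Finset.range (qk k) ×ˢ Finset.range (qk k), (cc i : ℂ) * (u i.1 * v i.2)‖
      ≤ C₁ * C₂ * (eta (qk k) * (qk k : ℝ) ^ 2) := by
  have h1 := bil_k k 1 (Or.inl rfl) u v C₁ C₂ hu hv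
  have h2 := bil_k k (-1) (Or.inr (Or.inl rfl)) u v C₁ C₂ hu hv
  have e : ∑ i ∈ Finset.range (qk k) ×ˢ Finset.range (qk k), (cc i : ℂ) * (u i.1 * v i.2)
      = (∑ a ∈ Finset.range (qk k), ∑ b ∈ Finset.range (qk k),
          ee (a * b * ((1 : ℤ) * al)) * (u a * v b)
        + ∑ a ∈ Finset.range (qk k), ∑ b ∈ Finset.range (qk k),
          ee (a * b * ((-1 : ℤ) * al)) * (u a * v b)) / 2 := by
    rw [Finset.sum_product, ← Finset.sum_add_distrib, Finset.sum_div]
    refine Finset.sum_congr rfl fun a _ => ?_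
    rw [← Finset.sum_add_distrib, Finset.sum_div]
    refine Finset.sum_congr rfl fun b _ => ?_
    rw [cc_eq]
    ring
  rw [e, norm_div, Complex.norm_ofNat]
  have h3 := (norm_add_le _ _).trans (add_le_add h1 h2)
  have h4 : (0 : ℝ) < 2 := by norm_num
  rw [div_le_iff₀ h4]
  refine h3.trans (le_of_eq ?_)
  ring

/-- the weighted averages as complex numbers -/
theorem avg_ML (k : ℕ) (Φ : ℤ × ℤ → ℂ) :
    ((ML k).length : ℝ)⁻¹ • ((ML k).map Φ).sum
      = ((∑ i ∈ Finset.range (qk k) ×ˢ Finset.range (qk k), (mult k i.1 i.2 : ℝ) : ℝ) : ℂ)⁻¹ *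
        ∑ i ∈ Finset.range (qk k) ×ˢ Finset.range (qk k),
          (mult k i.1 i.2 : ℂ) * Φ ((i.1 : ℤ), (i.2 : ℤ)) := by
  unfold ML
  rw [sum_mlist, length_mlist, Finset.sum_product, Finset.sum_product, Complex.real_smul]
  push_cast
  simp_rw [nsmul_eq_mul]

/-- even blocks -/
theorem avg_even (k : ℕ) (hk : Even k) (Φ : ℤ × ℤ → ℂ) :
    ((ML k).length : ℝ)⁻¹ • ((ML k).map Φ).sum
      = (((qk k : ℝ) ^ 2 : ℝ) : ℂ)⁻¹ * ∑ i ∈ Finset.range (qk k) ×ˢ Finset.range (qk k),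
          Φ ((i.1 : ℤ), (i.2 : ℤ)) := by
  rw [avg_ML]
  have h : ∀ a b, mult k a b = 1 := fun a b => by unfold mult; rw [if_pos hk]
  simp only [h, Nat.cast_one, one_mul, Finset.sum_const, nsmul_eq_mul, mul_one]
  rw [card_sq]

/-- odd blocks -/
theorem avg_odd (k : ℕ) (hk : ¬ Even k) (hη : eta (qk k) ≤ 1 / 2) (Φ : ℤ × ℤ → ℂ) (C : ℝ)
    (hΦ : ∀ i, ‖Φ i‖ ≤ C) :
    ‖((ML k).length : ℝ)⁻¹ • ((ML k).map Φ).sum
      - (((qk k : ℝ) ^ 2 : ℝ) : ℂ)⁻¹ * ∑ i ∈ Finset.range (qk k) ×ˢ Finset.range (qk k),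
          ((1 + cc i : ℝ) : ℂ) * Φ ((i.1 : ℤ), (i.2 : ℤ))‖ ≤ C * (4 * eta (qk k) + 6 / (k + 1)) := by
  have hC : 0 ≤ C := (norm_nonneg _).trans (hΦ (0, 0))
  rw [avg_ML, ← card_sq]
  have hm : ∀ i : ℕ × ℕ, mult k i.1 i.2 = ⌊((k : ℝ) + 1) * (1 + cc i)⌋₊ + 1 := fun i => by
    unfold mult; rw [if_neg hk]
  have hk0 : (0 : ℝ) ≤ k := by positivity
  refine rounding (Finset.range (qk k) ×ˢ Finset.range (qk k)) ?_ (fun i => mult k i.1 i.2) cc
    ((k : ℝ) + 1) (eta (qk k)) C (by linarith) cc_le ?_ ?_ ?_ hη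
    (fun i => Φ ((i.1 : ℤ), (i.2 : ℤ))) (fun i => hΦ _) hC
  · rw [Finset.card_product, Finset.card_range]
    have := qk_pos k
    positivity
  · intro i
    rw [hm]
    push_cast
    exact (Nat.lt_floor_add_one _).le
  · intro i
    rw [hm]
    push_cast
    have h1 : 0 ≤ ((k : ℝ) + 1) * (1 + cc i) := by
      have := (abs_le.mp (cc_le i)).1
      have h2 : 0 ≤ 1 + cc i := by linarith
      positivity
    linarith [Nat.floor_le h1]
  · have h1 := cc_sum k (fun _ => 1) (fun _ => 1) 1 1 (by simp) (by simp)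
    simp only [mul_one, one_mul] at h1
    rw [card_sq]
    rw [← Complex.ofReal_sum, Complex.norm_real, Real.norm_eq_abs] at h1
    exact h1

/-- the error -/
noncomputable def dl (k : ℕ) : ℝ := 5 * eta (qk k) + 6 / (k + 1)

theorem eta_qk_tendsto : Tendsto (fun k => eta (qk k)) atTop (𝓝 0) :=
  eta_tendsto.comp (tendsto_atTop_mono qk_ge tendsto_id)

theorem dl_tendsto : Tendsto dl atTop (𝓝 0) := by
  have t1 : Tendsto (fun k : ℕ => (6 : ℝ) / ((k : ℝ) + 1)) atTop (𝓝 0) :=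
    (tendsto_const_div_atTop_nhds_zero_nat (6 : ℝ)).comp (tendsto_add_atTop_nat 1) |>.congr
      (fun k => by simp)
  have t2 := (eta_qk_tendsto.const_mul 5).add t1
  rw [mul_zero, add_zero] at t2
  exact t2

/-- averages of products over the lists -/
theorem avg_prod (k : ℕ) (hη : eta (qk k) ≤ 1 / 2) (u v : ℤ → ℂ) (C₁ C₂ : ℝ)
    (hu : ∀ a, ‖u a‖ ≤ C₁) (hv : ∀ a, ‖v a‖ ≤ C₂) :
    ‖((ML k).length : ℝ)⁻¹ • ((ML k).map (fun n : ℤ × ℤ => u n.1 * v n.2)).sum
      - ((qk k : ℂ)⁻¹ * ∑ a ∈ Finset.range (qk k), u a) *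
        ((qk k : ℂ)⁻¹ * ∑ b ∈ Finset.range (qk k), v b)‖ ≤ C₁ * C₂ * dl k := by
  have hC₁ : 0 ≤ C₁ := (norm_nonneg _).trans (hu 0)
  have hC₂ : 0 ≤ C₂ := (norm_nonneg _).trans (hv 0)
  have hq0 : (0 : ℝ) < qk k := by exact_mod_cast qk_pos k
  have e : ((qk k : ℂ)⁻¹ * ∑ a ∈ Finset.range (qk k), u a) *
        ((qk k : ℂ)⁻¹ * ∑ b ∈ Finset.range (qk k), v b)
      = (((qk k : ℝ) ^ 2 : ℝ) : ℂ)⁻¹ * ∑ i ∈ Finset.range (qk k) ×ˢ Finset.range (qk k),
          u i.1 * v i.2 := by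
    rw [Finset.sum_product]
    simp_rw [← Finset.mul_sum]
    rw [← Finset.sum_mul]
    push_cast
    rw [sq, mul_inv]
    ring
  have hdl0 : 0 ≤ dl k := by
    unfold dl
    have := eta_nonneg (qk k)
    positivity
  by_cases hk : Even k
  · rw [avg_even k hk, e, sub_self, norm_zero]
    positivity
  · have h1 := avg_odd k hk hη (fun n : ℤ × ℤ => u n.1 * v n.2) (C₁ * C₂) (fun i => by
      rw [norm_mul]; exact mul_le_mul (hu _) (hv _) (norm_nonneg _) hC₁)
    have h2 : ‖(((qk k : ℝ) ^ 2 : ℝ) : ℂ)⁻¹ * ∑ i ∈ Finset.range (qk k) ×ˢ Finset.range (qk k),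
          ((1 + cc i : ℝ) : ℂ) * (u i.1 * v i.2)
        - (((qk k : ℝ) ^ 2 : ℝ) : ℂ)⁻¹ * ∑ i ∈ Finset.range (qk k) ×ˢ Finset.range (qk k),
          u i.1 * v i.2‖ ≤ C₁ * C₂ * eta (qk k) := by
      rw [← mul_sub, ← Finset.sum_sub_distrib]
      have h3 : ∀ i ∈ Finset.range (qk k) ×ˢ Finset.range (qk k),
          ((1 + cc i : ℝ) : ℂ) * (u i.1 * v i.2) - u i.1 * v i.2
          = (cc i : ℂ) * (u i.1 * v i.2) := by
        intro i _; push_cast; ring
      rw [Finset.sum_congr rfl h3, norm_mul, norm_inv, Complex.norm_real,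
        Real.norm_of_nonneg (by positivity), inv_mul_le_iff₀ (by positivity)]
      refine (cc_sum k (fun a => u a) (fun b => v b) C₁ C₂ (fun a => hu a) (fun b => hv b)).trans
        (le_of_eq ?_)
      ring
    rw [e]
    refine (norm_sub_le_norm_sub_add_norm_sub _ _ _).trans ((add_le_add h1 h2).trans (le_of_eq ?_))
    unfold dl
    ring

/-- the test function -/
noncomputable def psi (n : ℤ × ℤ) : ℂ := ee (-(n.1 * n.2 * al))

theorem norm_psi (n : ℤ × ℤ) : ‖psi n‖ = 1 := norm_ee _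

theorem psi_sum (k : ℕ) : ‖∑ i ∈ Finset.range (qk k) ×ˢ Finset.range (qk k),
    psi ((i.1 : ℤ), (i.2 : ℤ))‖ ≤ eta (qk k) * (qk k : ℝ) ^ 2 := by
  have h := bil_k k (-1) (Or.inr (Or.inl rfl)) (fun _ => 1) (fun _ => 1) 1 1 (by simp) (by simp)
  simp only [mul_one, one_mul] at h
  rw [Finset.sum_product]
  refine le_trans (le_of_eq ?_) h
  congr 1
  refine Finset.sum_congr rfl fun a _ => Finset.sum_congr rfl fun b _ => ?_
  unfold psi
  congr 1
  push_cast
  ring

theorem avg_psi_even (k : ℕ) (hk : Even k) :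
    ‖((ML k).length : ℝ)⁻¹ • ((ML k).map psi).sum‖ ≤ dl k := by
  have hq0 : (0 : ℝ) < qk k := by exact_mod_cast qk_pos k
  rw [avg_even k hk, norm_mul, norm_inv, Complex.norm_real, Real.norm_of_nonneg (by positivity),
    inv_mul_le_iff₀ (by positivity)]
  refine (psi_sum k).trans ?_
  have h1 : eta (qk k) ≤ dl k := by
    unfold dl
    have := eta_nonneg (qk k)
    have : (0 : ℝ) ≤ 6 / (k + 1) := by positivity
    linarith
  rw [mul_comm]
  gcongr

theorem aux_norm (S P : ℂ) (Q η : ℝ) (hQ : 0 < Q) (hS : ‖S‖ ≤ η * Q) (hP : ‖P‖ ≤ η * Q)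
    (hη : 0 ≤ η) : ‖(Q : ℂ)⁻¹ * (S + (Q : ℂ) / 2 + P / 2) - 1 / 2‖ ≤ 2 * η := by
  have hQc : (Q : ℂ) ≠ 0 := by exact_mod_cast hQ.ne'
  have h9 : (Q : ℂ)⁻¹ * (S + (Q : ℂ) / 2 + P / 2) - 1 / 2 = (Q : ℂ)⁻¹ * (S + P / 2) := by
    field_simp
    ring
  rw [h9, norm_mul, norm_inv, Complex.norm_real, Real.norm_of_nonneg hQ.le, inv_mul_le_iff₀ hQ]
  have h10 := norm_add_le S (P / 2)
  rw [norm_div, Complex.norm_ofNat] at h10
  have h11 : 0 ≤ η * Q := by positivity
  nlinarith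

theorem avg_psi_odd (k : ℕ) (hk : ¬ Even k) (hη : eta (qk k) ≤ 1 / 2) :
    ‖((ML k).length : ℝ)⁻¹ • ((ML k).map psi).sum - 1 / 2‖ ≤ 2 * dl k := by
  have hq0 : (0 : ℝ) < qk k := by exact_mod_cast qk_pos k
  have h1 := avg_odd k hk hη psi 1 (fun i => (norm_psi i).le)
  have h2 := bil_k k (-2) (Or.inr (Or.inr rfl)) (fun _ => 1) (fun _ => 1) 1 1 (by simp) (by simp)
  simp only [mul_one, one_mul] at h2
  rw [← Finset.sum_product' (f := fun a b : ℕ => ee ((a : ℝ) * b * (((-2 : ℤ) : ℝ) * al)))] at h2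
  have h3 := psi_sum k
  have hcard := card_sq (qk k)
  have e : ∑ i ∈ Finset.range (qk k) ×ˢ Finset.range (qk k),
      ((1 + cc i : ℝ) : ℂ) * psi ((i.1 : ℤ), (i.2 : ℤ))
      = (∑ i ∈ Finset.range (qk k) ×ˢ Finset.range (qk k), psi ((i.1 : ℤ), (i.2 : ℤ)))
        + (((qk k : ℝ) ^ 2 : ℝ) : ℂ) / 2
        + (∑ i ∈ Finset.range (qk k) ×ˢ Finset.range (qk k),
            ee ((i.1 : ℝ) * i.2 * (((-2 : ℤ) : ℝ) * al))) / 2 := by
    have h4 : (((qk k : ℝ) ^ 2 : ℝ) : ℂ) / 2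
        = ∑ i ∈ Finset.range (qk k) ×ˢ Finset.range (qk k), (1 / 2 : ℂ) := by
      rw [Finset.sum_const, nsmul_eq_mul, ← card_sq]; push_cast; ring
    rw [h4, Finset.sum_div, ← Finset.sum_add_distrib, ← Finset.sum_add_distrib]
    refine Finset.sum_congr rfl fun i _ => ?_
    have h5 : psi ((i.1 : ℤ), (i.2 : ℤ)) = ee (i.1 * i.2 * (((-1 : ℤ) : ℝ) * al)) := by
      unfold psi; congr 1; push_cast; ring
    have h6 : ee (i.1 * i.2 * (((1 : ℤ) : ℝ) * al)) * ee (i.1 * i.2 * (((-1 : ℤ) : ℝ) * al)) = 1 := by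
      rw [← ee_add, ← ee_zero]; congr 1; push_cast; ring
    have h7 : ee (i.1 * i.2 * (((-1 : ℤ) : ℝ) * al)) * ee (i.1 * i.2 * (((-1 : ℤ) : ℝ) * al))
        = ee ((i.1 : ℝ) * i.2 * (((-2 : ℤ) : ℝ) * al)) := by
      rw [← ee_add]; congr 1; push_cast; ring
    push_cast
    push_cast at h5 h6 h7
    rw [cc_eq, h5]
    push_cast
    linear_combination (1 / 2 : ℂ) * h6 + (1 / 2 : ℂ) * h7
  have hqc : (((qk k : ℝ) ^ 2 : ℝ) : ℂ) ≠ 0 := by
    have : ((qk k : ℝ) ^ 2) ≠ 0 := by positivity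
    exact_mod_cast this
  have h8 : ‖(((qk k : ℝ) ^ 2 : ℝ) : ℂ)⁻¹ * ∑ i ∈ Finset.range (qk k) ×ˢ Finset.range (qk k),
      ((1 + cc i : ℝ) : ℂ) * psi ((i.1 : ℤ), (i.2 : ℤ)) - 1 / 2‖ ≤ 2 * eta (qk k) := by
    rw [e]
    exact aux_norm _ _ _ _ (by positivity) h3 h2 (eta_nonneg _)
  refine (norm_sub_le_norm_sub_add_norm_sub _ _ _).trans ((add_le_add h1 h8).trans ?_)
  unfold dl
  have := eta_nonneg (qk k)
  have : (0 : ℝ) ≤ 6 / (k + 1) := by positivity
  linarith

end Comb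

/-! ### Averages in measure preserving systems -/

namespace Dyn
open Conc Bil Wt Comb MeasureTheory
open scoped ENNReal

variable {X : Type} [MeasurableSpace X] {μ : Measure X} [IsProbabilityMeasure μ]

omit [IsProbabilityMeasure μ] in
theorem mp_zpow (T : Equiv.Perm X) (h : MeasurePreserving T μ μ) (hs : Measurable T.symm) (n : ℤ) :
    MeasurePreserving (T ^ n : Equiv.Perm X) μ μ := by
  have hinv : MeasurePreserving (T⁻¹ : Equiv.Perm X) μ μ := by
    let e : X ≃ᵐ X := ⟨T, h.measurable, hs⟩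
    have he : MeasurePreserving e μ μ := h
    exact he.symm
  have hnat : ∀ (S : Equiv.Perm X), MeasurePreserving S μ μ → ∀ m : ℕ,
      MeasurePreserving (S ^ m : Equiv.Perm X) μ μ := by
    intro S hS m
    induction m with
    | zero => simpa using MeasurePreserving.id μ
    | succ m ih =>
      rw [pow_succ]
      exact ih.comp hS
  cases n with
  | ofNat m => simpa using hnat T h m
  | negSucc m =>
    rw [zpow_negSucc, ← inv_pow]
    exact hnat _ hinv _

theorem memLp_of_bdd {f : X → ℂ} (hf : StronglyMeasurable f) {C : ℝ} (hC : ∀ x, ‖f x‖ ≤ C)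
    (p : ℝ≥0∞) : MemLp f p μ :=
  MemLp.of_bound hf.aestronglyMeasurable C (Filter.Eventually.of_forall hC)

theorem norm_toLp_le {f : X → ℂ} (hf : MemLp f 2 μ) {C : ℝ} (hC0 : 0 ≤ C) (hC : ∀ x, ‖f x‖ ≤ C) :
    ‖hf.toLp f‖ ≤ C := by
  rw [Lp.norm_toLp]
  have h := eLpNorm_le_of_ae_bound (p := 2) (μ := μ) (Filter.Eventually.of_forall hC)
  simp only [measure_univ, ENNReal.one_rpow, one_mul] at h
  exact ENNReal.toReal_le_of_le_ofReal hC0 h

omit [IsProbabilityMeasure μ] in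
theorem toLp_list_sum {P : Type} (φ : P → X → ℂ) (hφ : ∀ n, MemLp (φ n) 2 μ) (L : List P) :
    ∃ h : MemLp (fun x => (L.map (fun n => φ n x)).sum) 2 μ,
      (L.map (fun n => (hφ n).toLp (φ n))).sum = h.toLp _ := by
  induction L with
  | nil =>
    refine ⟨by simp, ?_⟩
    simp only [List.map_nil, List.sum_nil]
    rfl
  | cons a L ih =>
    obtain ⟨h, he⟩ := ih
    have h2 : MemLp (fun x => ((a :: L).map (fun n => φ n x)).sum) 2 μ := by
      simp only [List.map_cons, List.sum_cons]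
      exact (hφ a).add h
    refine ⟨h2, ?_⟩
    rw [List.map_cons, List.sum_cons, he, ← MemLp.toLp_add]
    congr 1

omit [IsProbabilityMeasure μ] in
theorem avg_toLp {P : Type} (φ : P → X → ℂ) (hφ : ∀ n, MemLp (φ n) 2 μ) (L : List P) (c : ℝ) :
    ∃ h : MemLp (fun x => c • (L.map (fun n => φ n x)).sum) 2 μ,
      c • (L.map (fun n => (hφ n).toLp (φ n))).sum = h.toLp _ := by
  obtain ⟨h, he⟩ := toLp_list_sum φ hφ L
  refine ⟨h.const_smul c, ?_⟩
  rw [he, ← MemLp.toLp_const_smul]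
  rfl

/-- ergodic averages -/
noncomputable def erg (T : Equiv.Perm X) (f : X → ℂ) (q : ℕ) (x : X) : ℂ :=
  (q : ℂ)⁻¹ * ∑ a ∈ Finset.range q, f ((T ^ (a : ℤ)) x)

omit [MeasurableSpace X] in
theorem erg_bdd (T : Equiv.Perm X) (f : X → ℂ) {C : ℝ} (hC : ∀ x, ‖f x‖ ≤ C) (hC0 : 0 ≤ C)
    (q : ℕ) (x : X) : ‖erg T f q x‖ ≤ C := by
  unfold erg
  rw [norm_mul, norm_inv, Complex.norm_natCast]
  rcases Nat.eq_zero_or_pos q with rfl | hq
  · simpa using hC0
  have hq0 : (0 : ℝ) < q := by exact_mod_cast hq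
  rw [inv_mul_le_iff₀ hq0]
  calc _ ≤ ∑ a ∈ Finset.range q, ‖f ((T ^ (a : ℤ)) x)‖ := norm_sum_le _ _
    _ ≤ ∑ a ∈ Finset.range q, C := Finset.sum_le_sum fun _ _ => hC _
    _ = _ := by simp

omit [IsProbabilityMeasure μ] in
theorem sm_comp (T : Equiv.Perm X) (h : MeasurePreserving T μ μ) (hs : Measurable T.symm)
    {f : X → ℂ} (hf : StronglyMeasurable f) (n : ℤ) :
    StronglyMeasurable (fun x => f ((T ^ n) x)) :=
  hf.comp_measurable (mp_zpow T h hs n).measurable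

omit [IsProbabilityMeasure μ] in
theorem sm_erg (T : Equiv.Perm X) (h : MeasurePreserving T μ μ) (hs : Measurable T.symm)
    {f : X → ℂ} (hf : StronglyMeasurable f) (q : ℕ) : StronglyMeasurable (erg T f q) := by
  unfold erg
  apply StronglyMeasurable.const_mul
  exact Finset.stronglyMeasurable_fun_sum _ fun a _ => sm_comp T h hs hf _

/-- the mean ergodic theorem in the form we need -/
theorem mean_ergodic (T : Equiv.Perm X) (h : MeasurePreserving T μ μ) (hs : Measurable T.symm)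
    {f : X → ℂ} (hf : StronglyMeasurable f) {C : ℝ} (hC : ∀ x, ‖f x‖ ≤ C) (hC0 : 0 ≤ C) :
    CauchySeq (fun q => (memLp_of_bdd (sm_erg T h hs hf q) (erg_bdd T f hC hC0 q) 2 :
      MemLp (erg T f q) 2 μ).toLp (erg T f q)) := by
  set U : Lp ℂ 2 μ →L[ℂ] Lp ℂ 2 μ :=
    (Lp.compMeasurePreservingₗᵢ ℂ (T : X → X) h).toContinuousLinearMap with hU
  have hUn : ‖U‖ ≤ 1 := LinearIsometry.norm_toContinuousLinearMap_le _
  have hf2 : MemLp f 2 μ := memLp_of_bdd hf hC 2
  have hmem : ∀ k : ℕ, MemLp (fun x => f ((T ^ (k : ℤ)) x)) 2 μ := fun k =>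
    memLp_of_bdd (sm_comp T h hs hf k) (fun x => hC _) 2
  have hiter : ∀ k : ℕ, (U^[k]) (hf2.toLp f) = (hmem k).toLp _ := by
    intro k
    induction k with
    | zero => simp
    | succ k ih =>
      rw [Function.iterate_succ_apply', ih]
      have e1 : U ((hmem k).toLp _) = ((hmem k).comp_measurePreserving h).toLp _ := rfl
      rw [e1]
      apply MemLp.toLp_congr
      refine Filter.Eventually.of_forall fun x => ?_
      simp only [Function.comp_apply]
      rfl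
  have h1 := ContinuousLinearMap.tendsto_birkhoffAverage_orthogonalProjection U hUn (hf2.toLp f)
  refine (h1.congr ?_).cauchySeq
  intro q
  unfold birkhoffAverage birkhoffSum
  simp only [id, hiter]
  have hs' : ∀ n : ℕ, ∃ hn : MemLp (fun x => ∑ a ∈ Finset.range n, f ((T ^ (a : ℤ)) x)) 2 μ,
      ∑ k ∈ Finset.range n, (hmem k).toLp _ = hn.toLp _ := by
    intro n
    induction n with
    | zero =>
      refine ⟨by simp, ?_⟩
      simp only [Finset.range_zero, Finset.sum_empty]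
      rfl
    | succ n ih =>
      obtain ⟨hn, he⟩ := ih
      have h2 : MemLp (fun x => ∑ a ∈ Finset.range (n + 1), f ((T ^ (a : ℤ)) x)) 2 μ := by
        simp only [Finset.sum_range_succ]
        exact hn.add (hmem n)
      refine ⟨h2, ?_⟩
      rw [Finset.sum_range_succ, he, ← MemLp.toLp_add]
      apply MemLp.toLp_congr
      refine Filter.Eventually.of_forall fun x => ?_
      simp only [Finset.sum_range_succ, Pi.add_apply]
  obtain ⟨hq, he⟩ := hs' q
  rw [he, ← MemLp.toLp_const_smul]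
  rfl

/-- products of ergodic averages converge -/
theorem cauchy_prod (T S : Equiv.Perm X) (hT : MeasurePreserving T μ μ) (hTs : Measurable T.symm)
    (hS : MeasurePreserving S μ μ) (hSs : Measurable S.symm)
    {f g : X → ℂ} (hf : StronglyMeasurable f) (hg : StronglyMeasurable g) {C₁ C₂ : ℝ}
    (hC₁ : ∀ x, ‖f x‖ ≤ C₁) (hC₂ : ∀ x, ‖g x‖ ≤ C₂) (h1 : 0 ≤ C₁) (h2 : 0 ≤ C₂)
    (hm : ∀ q, MemLp (fun x => erg T f q x * erg S g q x) 2 μ) :
    CauchySeq (fun q => (hm q).toLp _) := by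
  have ca := mean_ergodic T hT hTs hf hC₁ h1
  have cb := mean_ergodic S hS hSs hg hC₂ h2
  rw [Metric.cauchySeq_iff] at ca cb ⊢
  intro ε hε
  have hε1 : 0 < ε / (2 * (C₂ + 1)) := by positivity
  have hε2 : 0 < ε / (2 * (C₁ + 1)) := by positivity
  obtain ⟨N1, hN1⟩ := ca _ hε1
  obtain ⟨N2, hN2⟩ := cb _ hε2
  refine ⟨max N1 N2, fun m hmN n hnN => ?_⟩
  have a1 := hN1 m (le_trans (le_max_left _ _) hmN) n (le_trans (le_max_left _ _) hnN)
  have b1 := hN2 m (le_trans (le_max_right _ _) hmN) n (le_trans (le_max_right _ _) hnN)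
  rw [dist_eq_norm] at a1 b1 ⊢
  have mf : ∀ q, MemLp (erg T f q) 2 μ := fun q =>
    memLp_of_bdd (sm_erg T hT hTs hf q) (erg_bdd T f hC₁ h1 q) 2
  have mg : ∀ q, MemLp (erg S g q) 2 μ := fun q =>
    memLp_of_bdd (sm_erg S hS hSs hg q) (erg_bdd S g hC₂ h2 q) 2
  have hbf := erg_bdd T f hC₁ h1
  have hbg := erg_bdd S g hC₂ h2
  -- the two pieces
  have mp1 : MemLp (fun x => (erg T f m x - erg T f n x) * erg S g m x) 2 μ := by
    apply memLp_of_bdd (C := (C₁ + C₁) * C₂)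
    · exact ((sm_erg T hT hTs hf m).sub (sm_erg T hT hTs hf n)).mul (sm_erg S hS hSs hg m)
    · intro x
      rw [norm_mul]
      exact mul_le_mul ((norm_sub_le _ _).trans (add_le_add (hbf m x) (hbf n x))) (hbg m x)
        (norm_nonneg _) (by positivity)
  have mp2 : MemLp (fun x => erg T f n x * (erg S g m x - erg S g n x)) 2 μ := by
    apply memLp_of_bdd (C := C₁ * (C₂ + C₂))
    · exact (sm_erg T hT hTs hf n).mul ((sm_erg S hS hSs hg m).sub (sm_erg S hS hSs hg n))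
    · intro x
      rw [norm_mul]
      exact mul_le_mul (hbf n x) ((norm_sub_le _ _).trans (add_le_add (hbg m x) (hbg n x)))
        (norm_nonneg _) (by positivity)
  have e : (hm m).toLp _ - (hm n).toLp _ = mp1.toLp _ + mp2.toLp _ := by
    rw [← MemLp.toLp_sub, ← MemLp.toLp_add]
    apply MemLp.toLp_congr
    refine Filter.Eventually.of_forall fun x => ?_
    simp only [Pi.sub_apply, Pi.add_apply]
    ring
  rw [e]
  have n1 : ‖mp1.toLp _‖ ≤ C₂ * ‖(mf m).toLp _ - (mf n).toLp _‖ := by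
    rw [← MemLp.toLp_sub]
    apply Lp.norm_le_mul_norm_of_ae_le_mul
    filter_upwards [mp1.coeFn_toLp, ((mf m).sub (mf n)).coeFn_toLp] with x hx1 hx2
    rw [hx1, hx2, norm_mul, mul_comm]
    simp only [Pi.sub_apply]
    gcongr
    exact hbg m x
  have n2 : ‖mp2.toLp _‖ ≤ C₁ * ‖(mg m).toLp _ - (mg n).toLp _‖ := by
    rw [← MemLp.toLp_sub]
    apply Lp.norm_le_mul_norm_of_ae_le_mul
    filter_upwards [mp2.coeFn_toLp, ((mg m).sub (mg n)).coeFn_toLp] with x hx1 hx2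
    rw [hx1, hx2, norm_mul]
    simp only [Pi.sub_apply]
    gcongr
    exact hbf n x
  have k1 : C₂ * ‖(mf m).toLp _ - (mf n).toLp _‖ ≤ C₂ * (ε / (2 * (C₂ + 1))) := by
    gcongr
  have k2 : C₁ * ‖(mg m).toLp _ - (mg n).toLp _‖ ≤ C₁ * (ε / (2 * (C₁ + 1))) := by
    gcongr
  have k3 : C₂ * (ε / (2 * (C₂ + 1))) < ε / 2 := by
    rw [mul_div_assoc', div_lt_div_iff₀ (by positivity) (by norm_num)]
    nlinarith
  have k4 : C₁ * (ε / (2 * (C₁ + 1))) < ε / 2 := by
    rw [mul_div_assoc', div_lt_div_iff₀ (by positivity) (by norm_num)]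
    nlinarith
  calc _ ≤ ‖mp1.toLp _‖ + ‖mp2.toLp _‖ := norm_add_le _ _
    _ < ε := by linarith


/-- running averages along the constructed sequence, bounded measurable functions -/
theorem main_bdd (T S : Equiv.Perm X) (hT : MeasurePreserving T μ μ) (hTs : Measurable T.symm)
    (hS : MeasurePreserving S μ μ) (hSs : Measurable S.symm)
    {f g : X → ℂ} (hf : StronglyMeasurable f) (hg : StronglyMeasurable g) {C₁ C₂ : ℝ}
    (hC₁ : ∀ x, ‖f x‖ ≤ C₁) (hC₂ : ∀ x, ‖g x‖ ≤ C₂) (h1 : 0 ≤ C₁) (h2 : 0 ≤ C₂) :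
    ∃ Λ : Lp ℂ 2 μ, Tendsto (fun N : ℕ => eLpNorm (fun x => (N : ℝ)⁻¹ •
      ∑ n ∈ Finset.range N, (f ((T ^ (seqq ML n).1) x) * g ((S ^ (seqq ML n).2) x)) - Λ x) 2 μ)
      atTop (𝓝 0) := by
  set φ : ℤ × ℤ → X → ℂ := fun n x => f ((T ^ n.1) x) * g ((S ^ n.2) x) with hφ
  have hφb : ∀ n x, ‖φ n x‖ ≤ C₁ * C₂ := by
    intro n x
    rw [hφ]
    simp only [norm_mul]
    exact mul_le_mul (hC₁ _) (hC₂ _) (norm_nonneg _) h1
  have hφs : ∀ n, StronglyMeasurable (φ n) := fun n =>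
    (sm_comp T hT hTs hf _).mul (sm_comp S hS hSs hg _)
  have hφm : ∀ n, MemLp (φ n) 2 μ := fun n => memLp_of_bdd (hφs n) (hφb n) 2
  set Φ : ℤ × ℤ → Lp ℂ 2 μ := fun n => (hφm n).toLp (φ n) with hΦ
  have hΦb : ∀ n, ‖Φ n‖ ≤ C₁ * C₂ := fun n => norm_toLp_le (hφm n) (by positivity) (hφb n)
  have hPb : ∀ q x, ‖erg T f q x * erg S g q x‖ ≤ C₁ * C₂ := by
    intro q x
    rw [norm_mul]
    exact mul_le_mul (erg_bdd T f hC₁ h1 q x) (erg_bdd S g hC₂ h2 q x) (norm_nonneg _) h1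
  have hm : ∀ q, MemLp (fun x => erg T f q x * erg S g q x) 2 μ := fun q =>
    memLp_of_bdd ((sm_erg T hT hTs hf q).mul (sm_erg S hS hSs hg q)) (hPb q) 2
  have hc := cauchy_prod T S hT hTs hS hSs hf hg hC₁ hC₂ h1 h2 hm
  obtain ⟨Λ, hΛ⟩ := cauchySeq_tendsto_of_complete hc
  refine ⟨Λ, ?_⟩
  have hΛ' : Tendsto (fun k => (hm (qk k)).toLp _) atTop (𝓝 Λ) :=
    hΛ.comp (tendsto_atTop_mono qk_ge tendsto_id)
  have hlist : Tendsto (fun k => ((ML k).length : ℝ)⁻¹ • ((ML k).map Φ).sum) atTop (𝓝 Λ) := by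
    have hdiff : Tendsto (fun k => ((ML k).length : ℝ)⁻¹ • ((ML k).map Φ).sum
        - (hm (qk k)).toLp _) atTop (𝓝 0) := by
      rw [tendsto_zero_iff_norm_tendsto_zero]
      have hb : Tendsto (fun k => C₁ * C₂ * dl k) atTop (𝓝 0) := by
        simpa using dl_tendsto.const_mul (C₁ * C₂)
      refine squeeze_zero' (Eventually.of_forall fun _ => norm_nonneg _) ?_ hb
      have hη : ∀ᶠ k in atTop, eta (qk k) ≤ 1 / 2 :=
        (eta_qk_tendsto.eventually (eventually_le_nhds (by norm_num : (0 : ℝ) < 1 / 2)))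
      filter_upwards [hη] with k hk
      obtain ⟨h3, he⟩ := avg_toLp φ hφm (ML k) (((ML k).length : ℝ)⁻¹)
      rw [hΦ, he, ← MemLp.toLp_sub]
      have hdl0 : 0 ≤ dl k := by
        unfold dl
        have := eta_nonneg (qk k)
        positivity
      apply norm_toLp_le _ (by positivity)
      intro x
      exact avg_prod k hk (fun n => f ((T ^ n) x)) (fun n => g ((S ^ n) x)) C₁ C₂
        (fun _ => hC₁ _) (fun _ => hC₂ _)
    simpa using hdiff.add hΛ'
  have hrun := tendsto_avg ML ML_ne Φ (C₁ * C₂) hΦb Λ hlist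
  have hrun2 : Tendsto (fun N : ℕ => ‖(N : ℝ)⁻¹ • ∑ n ∈ Finset.range N, Φ (seqq ML n) - Λ‖)
      atTop (𝓝 0) := tendsto_iff_norm_sub_tendsto_zero.mp hrun
  have hrun3 := (ENNReal.tendsto_ofReal hrun2)
  rw [ENNReal.ofReal_zero] at hrun3
  refine hrun3.congr ?_
  intro N
  have hs' : ∃ hn : MemLp (fun x => (N : ℝ)⁻¹ • ∑ n ∈ Finset.range N, φ (seqq ML n) x) 2 μ,
      (N : ℝ)⁻¹ • ∑ n ∈ Finset.range N, Φ (seqq ML n) = hn.toLp _ := by
    obtain ⟨h3, he⟩ := avg_toLp (fun n : ℕ => φ (seqq ML n)) (fun n => hφm _) (List.range N)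
      ((N : ℝ)⁻¹)
    have e1 : ∀ x, ((List.range N).map (fun n => φ (seqq ML n) x)).sum
        = ∑ n ∈ Finset.range N, φ (seqq ML n) x := fun x => rfl
    exact ⟨h3, he⟩
  obtain ⟨hn, he⟩ := hs'
  rw [he, Lp.norm_def, ENNReal.ofReal_toReal (Lp.eLpNorm_ne_top _)]
  apply eLpNorm_congr_ae
  filter_upwards [Lp.coeFn_sub (hn.toLp _) Λ, hn.coeFn_toLp] with x hx1 hx2
  rw [hx1]
  simp only [Pi.sub_apply, hx2]
  rfl

end Dyn

/-! ### The Heisenberg nilmanifold -/

/-- The Heisenberg group, as the manifold `ℝ³`. -/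
def Heis : Type := ℝ × ℝ × ℝ

namespace Heis

/-- coordinates to group element -/
def mk (x y z : ℝ) : Heis := (x, y, z)

def x (p : Heis) : ℝ := p.1
def y (p : Heis) : ℝ := p.2.1
def z (p : Heis) : ℝ := p.2.2

@[simp] theorem x_mk (a b c : ℝ) : (mk a b c).x = a := rfl
@[simp] theorem y_mk (a b c : ℝ) : (mk a b c).y = b := rfl
@[simp] theorem z_mk (a b c : ℝ) : (mk a b c).z = c := rfl

theorem ext' {p q : Heis} (hx : p.x = q.x) (hy : p.y = q.y) (hz : p.z = q.z) : p = q :=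
  Prod.ext hx (Prod.ext hy hz)

instance : TopologicalSpace Heis := inferInstanceAs (TopologicalSpace (ℝ × ℝ × ℝ))
instance : T2Space Heis := inferInstanceAs (T2Space (ℝ × ℝ × ℝ))
instance : SecondCountableTopology Heis := inferInstanceAs (SecondCountableTopology (ℝ × ℝ × ℝ))
instance : ChartedSpace (ℝ × ℝ × ℝ) Heis :=
  inferInstanceAs (ChartedSpace (ℝ × ℝ × ℝ) (ℝ × ℝ × ℝ))

instance : Mul Heis := ⟨fun p q => mk (p.x + q.x) (p.y + q.y) (p.z + q.z + p.x * q.y)⟩
instance : One Heis := ⟨mk 0 0 0⟩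
instance : Inv Heis := ⟨fun p => mk (-p.x) (-p.y) (-p.z + p.x * p.y)⟩

theorem mul_def (p q : Heis) : p * q = mk (p.x + q.x) (p.y + q.y) (p.z + q.z + p.x * q.y) := rfl
theorem one_def : (1 : Heis) = mk 0 0 0 := rfl
theorem inv_def (p : Heis) : p⁻¹ = mk (-p.x) (-p.y) (-p.z + p.x * p.y) := rfl

@[simp] theorem x_mul (p q : Heis) : (p * q).x = p.x + q.x := rfl
@[simp] theorem y_mul (p q : Heis) : (p * q).y = p.y + q.y := rfl
@[simp] theorem z_mul (p q : Heis) : (p * q).z = p.z + q.z + p.x * q.y := rfl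
@[simp] theorem x_one : (1 : Heis).x = 0 := rfl
@[simp] theorem y_one : (1 : Heis).y = 0 := rfl
@[simp] theorem z_one : (1 : Heis).z = 0 := rfl
@[simp] theorem x_inv (p : Heis) : (p⁻¹).x = -p.x := rfl
@[simp] theorem y_inv (p : Heis) : (p⁻¹).y = -p.y := rfl
@[simp] theorem z_inv (p : Heis) : (p⁻¹).z = -p.z + p.x * p.y := rfl

instance : Group Heis where
  mul_assoc p q r := by
    apply ext' <;> simp <;> ring
  one_mul p := by
    apply ext' <;> simp
  mul_one p := by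
    apply ext' <;> simp
  inv_mul_cancel p := by
    apply ext' <;> simp

theorem smooth_x : ContMDiff 𝓘(ℝ, ℝ × ℝ × ℝ) 𝓘(ℝ, ℝ) ∞ (fun p : Heis => p.x) :=
  (contDiff_fst (𝕜 := ℝ) (E := ℝ) (F := ℝ × ℝ)).contMDiff
theorem smooth_y : ContMDiff 𝓘(ℝ, ℝ × ℝ × ℝ) 𝓘(ℝ, ℝ) ∞ (fun p : Heis => p.y) :=
  (contDiff_fst.comp (contDiff_snd (𝕜 := ℝ) (E := ℝ) (F := ℝ × ℝ))).contMDiff
theorem smooth_z : ContMDiff 𝓘(ℝ, ℝ × ℝ × ℝ) 𝓘(ℝ, ℝ) ∞ (fun p : Heis => p.z) :=
  (contDiff_snd.comp (contDiff_snd (𝕜 := ℝ) (E := ℝ) (F := ℝ × ℝ))).contMDiff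

theorem smooth_mk {E H M : Type} [NormedAddCommGroup E] [NormedSpace ℝ E] [TopologicalSpace H]
    {I : ModelWithCorners ℝ E H} [TopologicalSpace M] [ChartedSpace H M] {f g h : M → ℝ}
    (hf : ContMDiff I 𝓘(ℝ, ℝ) ∞ f) (hg : ContMDiff I 𝓘(ℝ, ℝ) ∞ g)
    (hh : ContMDiff I 𝓘(ℝ, ℝ) ∞ h) :
    ContMDiff I 𝓘(ℝ, ℝ × ℝ × ℝ) ∞ (fun p => mk (f p) (g p) (h p)) :=
  hf.prodMk_space (hg.prodMk_space hh)

instance : IsManifold 𝓘(ℝ, ℝ × ℝ × ℝ) ∞ Heis :=
  inferInstanceAs (IsManifold 𝓘(ℝ, ℝ × ℝ × ℝ) ∞ (ℝ × ℝ × ℝ))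

instance : LieGroup 𝓘(ℝ, ℝ × ℝ × ℝ) ∞ Heis where
  contMDiff_mul := by
    have hx1 := smooth_x.comp
      (contMDiff_fst (I := 𝓘(ℝ, ℝ × ℝ × ℝ)) (J := 𝓘(ℝ, ℝ × ℝ × ℝ)) (M := Heis) (N := Heis) (n := ∞))
    have hy1 := smooth_y.comp
      (contMDiff_fst (I := 𝓘(ℝ, ℝ × ℝ × ℝ)) (J := 𝓘(ℝ, ℝ × ℝ × ℝ)) (M := Heis) (N := Heis) (n := ∞))
    have hz1 := smooth_z.comp
      (contMDiff_fst (I := 𝓘(ℝ, ℝ × ℝ × ℝ)) (J := 𝓘(ℝ, ℝ × ℝ × ℝ)) (M := Heis) (N := Heis) (n := ∞))
    have hx2 := smooth_x.comp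
      (contMDiff_snd (I := 𝓘(ℝ, ℝ × ℝ × ℝ)) (J := 𝓘(ℝ, ℝ × ℝ × ℝ)) (M := Heis) (N := Heis) (n := ∞))
    have hy2 := smooth_y.comp
      (contMDiff_snd (I := 𝓘(ℝ, ℝ × ℝ × ℝ)) (J := 𝓘(ℝ, ℝ × ℝ × ℝ)) (M := Heis) (N := Heis) (n := ∞))
    have hz2 := smooth_z.comp
      (contMDiff_snd (I := 𝓘(ℝ, ℝ × ℝ × ℝ)) (J := 𝓘(ℝ, ℝ × ℝ × ℝ)) (M := Heis) (N := Heis) (n := ∞))
    exact smooth_mk (hx1.add hx2) (hy1.add hy2) ((hz1.add hz2).add (hx1.mul hy2))
  contMDiff_inv := by
    exact smooth_mk smooth_x.neg smooth_y.neg (smooth_z.neg.add (smooth_x.mul smooth_y))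

instance : IsTopologicalGroup Heis := topologicalGroup_of_lieGroup 𝓘(ℝ, ℝ × ℝ × ℝ) ∞

/-- the integer lattice -/
def Lat : Subgroup Heis where
  carrier := {p | ∃ m l k : ℤ, p = mk m l k}
  mul_mem' := by
    rintro _ _ ⟨m, l, k, rfl⟩ ⟨m', l', k', rfl⟩
    refine ⟨m + m', l + l', k + k' + m * l', ?_⟩
    apply ext' <;> simp
  one_mem' := ⟨0, 0, 0, by apply ext' <;> simp⟩
  inv_mem' := by
    rintro _ ⟨m, l, k, rfl⟩
    refine ⟨-m, -l, -k + m * l, ?_⟩
    apply ext' <;> simp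

theorem mem_Lat {p : Heis} : p ∈ Lat ↔ ∃ m l k : ℤ, p = mk m l k := Iff.rfl

theorem cont_x : Continuous (fun p : Heis => p.x) := smooth_x.continuous
theorem cont_y : Continuous (fun p : Heis => p.y) := smooth_y.continuous
theorem cont_z : Continuous (fun p : Heis => p.z) := smooth_z.continuous

instance : DiscreteTopology Lat := by
  apply discreteTopology_of_isOpen_singleton_one
  have h : ({1} : Set Lat) = (fun p : Lat => (p : Heis)) ⁻¹'
      ({p | |p.x| < 1} ∩ {p | |p.y| < 1} ∩ {p | |p.z| < 1}) := by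
    ext p
    obtain ⟨p, hp⟩ := p
    obtain ⟨m, l, k, rfl⟩ := mem_Lat.mp hp
    simp only [Set.mem_singleton_iff, Set.mem_preimage, Set.mem_inter_iff, Set.mem_ofPred_eq,
      x_mk, y_mk, z_mk]
    constructor
    · intro h
      have h1 : mk (m : ℝ) l k = 1 := congrArg Subtype.val h
      have hx : (m : ℝ) = 0 := congrArg Heis.x h1
      have hy : (l : ℝ) = 0 := congrArg Heis.y h1
      have hz : (k : ℝ) = 0 := congrArg Heis.z h1
      rw [hx, hy, hz]; simp
    · rintro ⟨⟨h1, h2⟩, h3⟩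
      have e : ∀ n : ℤ, |(n : ℝ)| < 1 → n = 0 := by
        intro n hn
        have : |n| < 1 := by exact_mod_cast hn
        exact Int.abs_lt_one_iff.mp this
      have hm := e m h1
      have hl := e l h2
      have hk := e k h3
      subst hm hl hk
      apply Subtype.ext
      apply ext' <;> simp
  rw [h]
  apply IsOpen.preimage continuous_subtype_val
  refine IsOpen.inter (IsOpen.inter ?_ ?_) ?_
  · exact isOpen_lt cont_x.abs continuous_const
  · exact isOpen_lt cont_y.abs continuous_const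
  · exact isOpen_lt cont_z.abs continuous_const

/-- the unit box -/
def Box : Set Heis := (Set.Icc ((0, 0, 0) : ℝ × ℝ × ℝ) (1, 1, 1) : Set (ℝ × ℝ × ℝ))

theorem isCompact_Box : IsCompact Box :=
  (isCompact_Icc : IsCompact (Set.Icc ((0, 0, 0) : ℝ × ℝ × ℝ) (1, 1, 1)))

theorem mem_Box {p : Heis} (h1 : 0 ≤ p.x) (h2 : 0 ≤ p.y) (h3 : 0 ≤ p.z) (h4 : p.x ≤ 1)
    (h5 : p.y ≤ 1) (h6 : p.z ≤ 1) : p ∈ Box := ⟨⟨h1, h2, h3⟩, ⟨h4, h5, h6⟩⟩

instance : CompactSpace (Heis ⧸ Lat) := by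
  have himg := isCompact_Box.image (QuotientGroup.continuous_mk (N := Lat))
  have huniv : ((QuotientGroup.mk : Heis → Heis ⧸ Lat) '' Box) = Set.univ := by
    rw [Set.eq_univ_iff_forall]
    intro q
    induction q using QuotientGroup.induction_on with
    | H p =>
      set w : ℝ := p.z + p.x * (-⌊p.y⌋ : ℤ) with hw
      refine ⟨p * mk (-⌊p.x⌋ : ℤ) (-⌊p.y⌋ : ℤ) (-⌊w⌋ : ℤ), ?_, ?_⟩
      · have hx : (p * mk (-⌊p.x⌋ : ℤ) (-⌊p.y⌋ : ℤ) (-⌊w⌋ : ℤ)).x = Int.fract p.x := by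
          rw [x_mul, x_mk, Int.fract]; push_cast; ring
        have hy : (p * mk (-⌊p.x⌋ : ℤ) (-⌊p.y⌋ : ℤ) (-⌊w⌋ : ℤ)).y = Int.fract p.y := by
          rw [y_mul, y_mk, Int.fract]; push_cast; ring
        have hz : (p * mk (-⌊p.x⌋ : ℤ) (-⌊p.y⌋ : ℤ) (-⌊w⌋ : ℤ)).z = Int.fract w := by
          rw [z_mul, z_mk, y_mk, Int.fract, hw]; push_cast; ring
        apply mem_Box
        · rw [hx]; exact Int.fract_nonneg _
        · rw [hy]; exact Int.fract_nonneg _
        · rw [hz]; exact Int.fract_nonneg _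
        · rw [hx]; exact (Int.fract_lt_one _).le
        · rw [hy]; exact (Int.fract_lt_one _).le
        · rw [hz]; exact (Int.fract_lt_one _).le
      · rw [QuotientGroup.eq]
        have : (p * mk (-⌊p.x⌋ : ℤ) (-⌊p.y⌋ : ℤ) (-⌊w⌋ : ℤ))⁻¹ * p
            = (mk (-⌊p.x⌋ : ℤ) (-⌊p.y⌋ : ℤ) (-⌊w⌋ : ℤ))⁻¹ := by group
        rw [this]
        exact Lat.inv_mem ⟨_, _, _, rfl⟩
  constructor
  rw [← huniv]
  exact himg


/-! ### nilpotency -/

theorem mem_ucs1 {p : Heis} (hx : p.x = 0) (hy : p.y = 0) :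
    p ∈ Subgroup.upperCentralSeries Heis 1 := by
  rw [show (1 : ℕ) = 0 + 1 from rfl, Subgroup.mem_upperCentralSeries_succ_iff]
  intro w
  rw [Subgroup.upperCentralSeries_zero, Subgroup.mem_bot, commutatorElement_def]
  apply ext'
  · simp
  · simp
  · simp [hx, hy]

theorem ucs2 : Subgroup.upperCentralSeries Heis 2 = ⊤ := by
  rw [eq_top_iff]
  intro p _
  rw [show (2 : ℕ) = 1 + 1 from rfl, Subgroup.mem_upperCentralSeries_succ_iff]
  intro w
  rw [commutatorElement_def]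
  apply mem_ucs1
  · simp
  · simp

instance : Group.IsNilpotent Heis := ⟨2, ucs2⟩

theorem class_le : Group.nilpotencyClass Heis ≤ 2 := by
  rw [← Subgroup.upperCentralSeries_eq_top_iff_nilpotencyClass_le]
  exact ucs2

/-! ### a continuous function on the Heisenberg nilmanifold -/

open Bil

/-- bump function -/
noncomputable def bump (t : ℝ) : ℝ := max 0 (1 - 2 * |t|)

theorem bump_zero : bump 0 = 1 := by simp [bump]

theorem bump_of_half_le {t : ℝ} (ht : 1 / 2 ≤ |t|) : bump t = 0 := by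
  unfold bump; apply max_eq_left; linarith

theorem bump_cont : Continuous bump := by unfold bump; fun_prop

theorem ee_cont : Continuous ee := by unfold ee; fun_prop

/-- one term -/
noncomputable def term (k : ℤ) (p : Heis) : ℂ := (bump (p.y + k) : ℂ) * ee (p.z + k * p.x)

theorem term_cont (k : ℤ) : Continuous (term k) := by
  unfold term
  apply Continuous.mul
  · exact Complex.continuous_ofReal.comp (bump_cont.comp (cont_y.add continuous_const))
  · exact ee_cont.comp (cont_z.add (continuous_const.mul cont_x))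

/-- the function on the group -/
noncomputable def F0 (p : Heis) : ℂ := ∑ᶠ k : ℤ, term k p

theorem F0_cont : Continuous F0 := by
  unfold F0
  apply continuous_finsum term_cont
  intro p
  refine ⟨{q | |q.y - p.y| < 1}, ?_, ?_⟩
  · apply IsOpen.mem_nhds
    · exact isOpen_lt (cont_y.sub continuous_const).abs continuous_const
    · simp
  · apply Set.Finite.subset (Set.finite_Icc (-⌈|p.y| + 2⌉) ⌈|p.y| + 2⌉)
    rintro k ⟨q, hq1, hq2⟩
    have h1 : bump (q.y + k) ≠ 0 := by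
      intro h
      apply hq1
      unfold term
      rw [h]; simp
    have h2 : |q.y + k| < 1 / 2 := by
      by_contra hcon
      exact h1 (bump_of_half_le (not_lt.mp hcon))
    have h3 : |q.y - p.y| < 1 := hq2
    have h4 : |(k : ℝ)| ≤ |p.y| + 2 := by
      have e : (k : ℝ) = (q.y + k) - (q.y - p.y) - p.y := by ring
      have h5 := abs_sub (q.y + (k : ℝ)) (q.y - p.y)
      have h6 := abs_sub ((q.y + (k : ℝ)) - (q.y - p.y)) p.y
      rw [← e] at h6
      linarith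
    have h5 : |(k : ℝ)| ≤ (⌈|p.y| + 2⌉ : ℝ) := h4.trans (Int.le_ceil _)
    have h6 : |k| ≤ ⌈|p.y| + 2⌉ := by exact_mod_cast h5
    exact Set.mem_Icc.mpr (abs_le.mp h6)

theorem F0_inv (p : Heis) (m l k : ℤ) : F0 (p * mk m l k) = F0 p := by
  unfold F0
  have h : ∀ j : ℤ, term j (p * mk m l k) = term (j + l) p := by
    intro j
    unfold term
    simp only [y_mul, y_mk, z_mul, z_mk, x_mul, x_mk]
    have e1 : p.y + (l : ℝ) + j = p.y + ((j + l : ℤ) : ℝ) := by push_cast; ring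
    have e2 : p.z + (k : ℝ) + p.x * l + j * (p.x + m)
        = (p.z + ((j + l : ℤ) : ℝ) * p.x) + ((k + j * m : ℤ) : ℝ) := by push_cast; ring
    rw [e1, e2, ee_add, ee_int, mul_one]
  simp_rw [h]
  exact finsum_comp_equiv (Equiv.addRight l) (f := fun j => term j p)

/-- the function on the nilmanifold -/
noncomputable def FF : Heis ⧸ Lat → ℂ :=
  Quotient.lift F0 (by
    intro p q h
    have h1 : p⁻¹ * q ∈ Lat := QuotientGroup.leftRel_apply.mp h
    obtain ⟨m, l, k, hk⟩ := h1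
    have : q = p * mk m l k := by rw [← hk]; group
    rw [this, F0_inv])

theorem FF_mk (p : Heis) : FF (QuotientGroup.mk p) = F0 p := rfl

theorem FF_cont : Continuous FF := by
  apply Continuous.quotient_lift F0_cont

theorem zpow_b0 (n : ℤ) : (mk 0 1 0) ^ n = mk 0 n 0 := by
  induction n using Int.induction_on with
  | zero => apply ext' <;> simp
  | succ i ih =>
    rw [zpow_add_one, ih]
    apply ext' <;> simp
  | pred i ih =>
    rw [zpow_sub_one, ih]
    apply ext' <;> simp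
    ring

theorem zpow_b1 (t : ℝ) (n : ℤ) : (mk t 0 0) ^ n = mk (n * t) 0 0 := by
  induction n using Int.induction_on with
  | zero => apply ext' <;> simp
  | succ i ih =>
    rw [zpow_add_one, ih]
    apply ext' <;> simp
    ring
  | pred i ih =>
    rw [zpow_sub_one, ih]
    apply ext' <;> simp
    ring

theorem FF_eval (t : ℝ) (m n : ℤ) :
    FF (((mk 0 1 0) ^ m * (mk t 0 0) ^ n) • (QuotientGroup.mk (1 : Heis) : Heis ⧸ Lat))
      = ee (-(m * n * t)) := by
  have h : ((mk 0 1 0) ^ m * (mk t 0 0) ^ n) • (QuotientGroup.mk (1 : Heis) : Heis ⧸ Lat)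
      = QuotientGroup.mk (mk (n * t) m 0) := by
    rw [zpow_b0, zpow_b1]
    change (QuotientGroup.mk _ : Heis ⧸ Lat) = _
    congr 1
    apply ext' <;> simp
  rw [h, FF_mk]
  unfold F0
  rw [finsum_eq_single _ (-m)]
  · unfold term
    simp only [y_mk, z_mk, x_mk]
    have e1 : (m : ℝ) + ((-m : ℤ) : ℝ) = 0 := by push_cast; ring
    have e2 : (0 : ℝ) + ((-m : ℤ) : ℝ) * (n * t) = -(m * n * t) := by push_cast; ring
    rw [e1, e2, bump_zero]
    simp
  · intro k hk
    unfold term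
    have : bump ((mk (n * t) m 0).y + k) = 0 := by
      apply bump_of_half_le
      simp only [y_mk]
      have h1 : (m : ℤ) + k ≠ 0 := by intro h; apply hk; omega
      have h2 : (1 : ℤ) ≤ |m + k| := Int.one_le_abs h1
      have h3 : (1 : ℝ) ≤ |(m : ℝ) + k| := by exact_mod_cast h2
      linarith
    rw [this]; simp

end Heis

namespace Fin1
open Conc Bil Wt Comb Dyn

/-- the sequences: the first two come from the construction, the others vanish -/
noncomputable def aa (ℓ : ℕ) (i : Fin ℓ) (n : ℕ) : ℤ :=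
  if i.val = 0 then (seqq ML (n - 1)).1 else if i.val = 1 then (seqq ML (n - 1)).2 else 0

/-- bounded strongly measurable representatives -/
theorem exists_rep {X : Type} [MeasurableSpace X] {μ : Measure X} {f : X → ℂ}
    (hf : MemLp f ⊤ μ) : ∃ (g : X → ℂ) (C : ℝ), StronglyMeasurable g ∧ 0 ≤ C ∧
      (∀ x, ‖g x‖ ≤ C) ∧ f =ᵐ[μ] g := by
  obtain ⟨g0, hg0, hfg⟩ := hf.1
  set C : ℝ := (eLpNorm f ⊤ μ).toReal with hC
  have hCfin : eLpNorm f ⊤ μ ≠ ⊤ := hf.2.ne
  refine ⟨fun x => if ‖g0 x‖ ≤ C then g0 x else 0, C, ?_, ENNReal.toReal_nonneg, ?_, ?_⟩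
  · apply StronglyMeasurable.ite _ hg0 stronglyMeasurable_const
    exact measurableSet_le hg0.norm.measurable measurable_const
  · intro x
    simp only
    split_ifs with h
    · exact h
    · rw [norm_zero]; exact ENNReal.toReal_nonneg
  · have h1 : ∀ᵐ x ∂μ, ‖f x‖ₑ ≤ eLpNormEssSup f μ := ae_le_eLpNormEssSup
    filter_upwards [hfg, h1] with x hx hx1
    have h2 : ‖g0 x‖ ≤ C := by
      rw [← hx]
      have h3 : ‖f x‖ₑ ≤ eLpNorm f ⊤ μ := by rw [eLpNorm_exponent_top]; exact hx1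
      have h4 := ENNReal.toReal_mono hCfin h3
      rw [hC, eLpNorm_exponent_top]
      simpa using h4
    rw [if_pos h2, hx]

theorem shift_sum {E : Type} [AddCommMonoid E] (φ : ℕ → E) (N : ℕ) :
    ∑ n ∈ Finset.Icc 1 N, φ (n - 1) = ∑ n ∈ Finset.range N, φ n := by
  have h := Finset.sum_Ico_add' (fun n => φ (n - 1)) 0 N 1
  simp only [Nat.add_sub_cancel, zero_add] at h
  rw [Finset.range_eq_Ico, h]
  rfl

theorem good_commuting (m : ℕ) : GoodForCommuting (m + 2) (aa (m + 2)) := by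
  intro X _ μ _ T hT hTs _ f hf
  choose g C hg hC hb he using fun i => exists_rep (hf i)
  obtain ⟨Λ, hΛ⟩ := main_bdd (T 0) (T 1) (hT 0) (hTs 0) (hT 1) (hTs 1) (hg 0) (hg 1) (hb 0) (hb 1)
    (hC 0) (hC 1)
  -- the factor coming from the zero sequences
  set h : X → ℂ := fun x => ∏ i : Fin m, g i.succ.succ x with hh
  set D : ℝ := ∏ i : Fin m, C i.succ.succ with hD
  have hD0 : 0 ≤ D := Finset.prod_nonneg fun i _ => hC _
  have hhs : StronglyMeasurable h := Finset.stronglyMeasurable_fun_prod _ fun i _ => hg _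
  have hhb : ∀ x, ‖h x‖ ≤ D := by
    intro x
    rw [hh, hD]
    simp only [norm_prod]
    exact Finset.prod_le_prod (fun i _ => norm_nonneg _) fun i _ => hb _ x
  have hΛm : MemLp (fun x => Λ x * h x) 2 μ := by
    apply MemLp.of_le_mul (c := D) (Lp.memLp Λ)
    · exact (Lp.memLp Λ).1.mul hhs.aestronglyMeasurable
    · refine Filter.Eventually.of_forall fun x => ?_
      rw [norm_mul, mul_comm]
      gcongr
      exact hhb x
  refine ⟨fun x => Λ x * h x, hΛm, ?_⟩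
  set A : ℕ → X → ℂ := fun N x => (N : ℝ)⁻¹ • ∑ n ∈ Finset.range N,
    (g 0 ((T 0 ^ (seqq ML n).1) x) * g 1 ((T 1 ^ (seqq ML n).2) x)) with hA
  have hle : ∀ N, eLpNorm (fun x => multAvg (aa (m + 2)) T f N x - Λ x * h x) 2 μ
      ≤ ENNReal.ofReal D * eLpNorm (fun x => A N x - Λ x) 2 μ := by
    intro N
    apply eLpNorm_le_mul_eLpNorm_of_ae_le_mul
    have h0 : ∀ i, ∀ᵐ x ∂μ, ∀ n : ℤ, f i ((T i ^ n) x) = g i ((T i ^ n) x) := by
      intro i
      rw [ae_all_iff]
      intro n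
      exact (mp_zpow (T i) (hT i) (hTs i) n).quasiMeasurePreserving.ae_eq_comp (he i)
    filter_upwards [ae_all_iff.mpr h0] with x hx
    have e : multAvg (aa (m + 2)) T f N x = A N x * h x := by
      unfold multAvg
      rw [hA]
      simp only
      rw [Complex.real_smul, mul_assoc, Finset.sum_mul, ← shift_sum]
      push_cast
      rw [one_div]
      congr 1
      refine Finset.sum_congr rfl fun n _ => ?_
      rw [Fin.prod_univ_succ, Fin.prod_univ_succ]
      have e0 : f 0 ((T 0 ^ aa (m + 2) 0 n) x) = g 0 ((T 0 ^ (seqq ML (n - 1)).1) x) := by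
        rw [hx 0]; rfl
      have e1 : f (Fin.succ 0) ((T (Fin.succ 0) ^ aa (m + 2) (Fin.succ 0) n) x)
          = g 1 ((T 1 ^ (seqq ML (n - 1)).2) x) := by
        rw [hx]; rfl
      have e2 : ∀ i : Fin m, f i.succ.succ ((T i.succ.succ ^ aa (m + 2) i.succ.succ n) x)
          = g i.succ.succ x := by
        intro i
        rw [hx]
        have : aa (m + 2) i.succ.succ n = 0 := by
          unfold aa
          rw [if_neg (by simp), if_neg (by simp)]
        rw [this]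
        simp
      rw [e0, e1, Finset.prod_congr rfl fun i _ => e2 i]
      ring
    rw [e, ← sub_mul, norm_mul, mul_comm]
    gcongr
    exact hhb x
  have hlim : Tendsto (fun N => ENNReal.ofReal D * eLpNorm (fun x => A N x - Λ x) 2 μ) atTop
      (𝓝 0) := by
    have := ENNReal.Tendsto.const_mul (a := ENNReal.ofReal D) hΛ (Or.inr ENNReal.ofReal_ne_top)
    rwa [mul_zero] at this
  exact tendsto_of_tendsto_of_tendsto_of_le_of_le tendsto_const_nhds hlim
    (fun _ => bot_le) hle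

theorem good_nil (ℓ : ℕ) (a : Fin ℓ → ℕ → ℤ) (h : GoodForCommuting ℓ a) :
    GoodForNilsystems ℓ a := by
  intro E _ _ _ G _ _ _ _ _ _ _ Γ _ _ _ _ _ μ _ hinv b hb f hf
  have hG : IsTopologicalGroup G := topologicalGroup_of_lieGroup 𝓘(ℝ, E) ∞
  refine h (G ⧸ Γ) μ (fun i => MulAction.toPerm (b i)) (fun i => hinv (b i)) ?_ ?_ f hf
  · intro i
    exact (hinv (b i)⁻¹).measurable
  · intro i j
    have := (hb i j).map (MulAction.toPermHom G (G ⧸ Γ))
    exact this

theorem not_nilseq (m : ℕ) : ¬ NilsequenceAveragesConverge (m + 2) (aa (m + 2)) := by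
  intro hcon
  set b : Fin (m + 2) → Heis := fun i =>
    if i.val = 0 then Heis.mk 0 1 0 else if i.val = 1 then Heis.mk al 0 0 else 1 with hbdef
  obtain ⟨L, hL⟩ := hcon (ℝ × ℝ × ℝ) Heis Heis.Lat (Heis.class_le.trans (by omega))
    inferInstance inferInstance b (QuotientGroup.mk 1) Heis.FF Heis.FF_cont
  have hval : ∀ n : ℕ, Heis.FF ((List.ofFn fun i => b i ^ aa (m + 2) i n).prod •
      (QuotientGroup.mk (1 : Heis) : Heis ⧸ Heis.Lat)) = psi (seqq ML (n - 1)) := by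
    intro n
    have h1 : (List.ofFn fun i => b i ^ aa (m + 2) i n).prod
        = (Heis.mk 0 1 0) ^ (seqq ML (n - 1)).1 * (Heis.mk al 0 0) ^ (seqq ML (n - 1)).2 := by
      rw [List.ofFn_succ, List.ofFn_succ, List.prod_cons, List.prod_cons]
      have e0 : b 0 ^ aa (m + 2) 0 n = (Heis.mk 0 1 0) ^ (seqq ML (n - 1)).1 := rfl
      have e1 : b (Fin.succ 0) ^ aa (m + 2) (Fin.succ 0) n
          = (Heis.mk al 0 0) ^ (seqq ML (n - 1)).2 := rfl
      have e2 : (List.ofFn fun i : Fin m => b i.succ.succ ^ aa (m + 2) i.succ.succ n).prod = 1 := by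
        apply List.prod_eq_one
        intro x hx
        rw [List.mem_ofFn] at hx
        obtain ⟨i, rfl⟩ := hx
        have : b i.succ.succ = 1 := by
          rw [hbdef]
          simp only
          rw [if_neg (by simp), if_neg (by simp)]
        rw [this, one_zpow]
      rw [e0, e1, e2, mul_one]
    rw [h1, Heis.FF_eval]
    rfl
  have hL2 : Tendsto (fun N : ℕ => (N : ℝ)⁻¹ • ∑ n ∈ Finset.range N, psi (seqq ML n)) atTop
      (𝓝 L) := by
    refine hL.congr fun N => ?_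
    rw [Complex.real_smul, ← shift_sum]
    push_cast
    rw [one_div]
    congr 1
    exact Finset.sum_congr rfl fun n _ => hval n
  -- pass to the block ends
  set l : ℕ → ℕ := fun k => (pre ML (k + 1)).length with hl
  have hltop : Tendsto l atTop atTop :=
    tendsto_atTop_mono (fun k => (Nat.le_succ k).trans (le_length_pre ML ML_ne (k + 1))) tendsto_id
  have hL3 := hL2.comp hltop
  have hdiff : Tendsto (fun k : ℕ => ((l k : ℝ))⁻¹ • ∑ n ∈ Finset.range (l k), psi (seqq ML n)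
      - ((ML k).length : ℝ)⁻¹ • ((ML k).map psi).sum) atTop (𝓝 0) := by
    rw [tendsto_zero_iff_norm_tendsto_zero]
    have hb : Tendsto (fun k : ℕ => 2 * 1 / ((k : ℝ) + 1)) atTop (𝓝 0) :=
      (tendsto_const_div_atTop_nhds_zero_nat (2 * 1 : ℝ)).comp (tendsto_add_atTop_nat 1) |>.congr
        (fun k => by simp)
    refine squeeze_zero (fun _ => norm_nonneg _) (fun k => ?_) hb
    exact avg_block_end ML ML_ne psi 1 (fun n => (norm_psi n).le) k
  have hlist : Tendsto (fun k : ℕ => ((ML k).length : ℝ)⁻¹ • ((ML k).map psi).sum) atTop (𝓝 L) := by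
    have := hL3.sub hdiff
    rw [sub_zero] at this
    refine this.congr fun k => ?_
    simp only [Function.comp_apply]
    abel
  have h2 : Tendsto (fun j : ℕ => 2 * j) atTop atTop :=
    tendsto_atTop_mono (fun j => by simp only [id]; omega) tendsto_id
  have h3 : Tendsto (fun j : ℕ => 2 * j + 1) atTop atTop :=
    tendsto_atTop_mono (fun j => by simp only [id]; omega) tendsto_id
  have heven := hlist.comp h2
  have hodd := hlist.comp h3
  have hL0 : L = 0 := by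
    refine tendsto_nhds_unique heven ?_
    rw [tendsto_zero_iff_norm_tendsto_zero]
    refine squeeze_zero (fun _ => norm_nonneg _) (fun j => ?_) (dl_tendsto.comp h2)
    exact avg_psi_even (2 * j) (even_two_mul j)
  have hL1 : L = 1 / 2 := by
    refine tendsto_nhds_unique hodd ?_
    rw [tendsto_iff_norm_sub_tendsto_zero]
    have hb : Tendsto (fun j : ℕ => 2 * dl (2 * j + 1)) atTop (𝓝 0) := by
      simpa using (dl_tendsto.comp h3).const_mul 2
    have hη : ∀ᶠ k in atTop, eta (qk k) ≤ 1 / 2 :=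
      (eta_qk_tendsto.eventually (eventually_le_nhds (by norm_num : (0 : ℝ) < 1 / 2)))
    refine squeeze_zero' (Eventually.of_forall fun _ => norm_nonneg _) ?_ hb
    filter_upwards [h3.eventually hη] with j hj
    exact avg_psi_odd (2 * j + 1) (by simp) hj
  rw [hL0] at hL1
  norm_num at hL1

end Fin1

/-- For every `ℓ ≥ 2` there are integer sequences `a₁, …, a_ℓ` that satisfy (i) and (ii) but
fail (iii); so the three conditions are not equivalent. -/
theorem result (ℓ : ℕ) (hℓ : 2 ≤ ℓ) :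
    ∃ a : Fin ℓ → ℕ → ℤ, GoodForCommuting ℓ a ∧ GoodForNilsystems ℓ a ∧
      ¬ NilsequenceAveragesConverge ℓ a := by
  obtain ⟨m, rfl⟩ : ∃ m, ℓ = m + 2 := ⟨ℓ - 2, by omega⟩
  exact ⟨Fin1.aa (m + 2), Fin1.good_commuting m, Fin1.good_nil _ _ (Fin1.good_commuting m),
    Fin1.not_nilseq m⟩

end Pool.Agent.Results.MP_2957ea_an.EquivalenceFails

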